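import Pool.Agent.V7H11.LF.Low

/-!
# The lower bound for the number of questions
-/

set_option autoImplicit false

namespace Pool.Agent.V7H11.LF

open Finset Matrix Pool.Agent.W986.BF Alg

/-- the questions asked in a run -/
def Alg.asked {α : Type} (o : Query → Bool) : Alg α → List Query
  | out _ => []
  | ask q k => q :: (k (o q)).asked o

theorem length_asked {α : Type} (o : Query → Bool) (A : Alg α) :
    (A.asked o).length = A.cost o := by
  induction A with
  | out a => rfl
  | ask q k ih => simp only [Alg.asked, Alg.cost, List.length_cons, ih]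

theorem run_congr {α : Type} {o o' : Query → Bool} (A : Alg α)
    (h : ∀ q ∈ A.asked o, o' q = o q) : A.run o' = A.run o := by
  induction A with
  | out a => rfl
  | ask q k ih =>
    simp only [Alg.asked, List.mem_cons, forall_eq_or_imp] at h
    simp only [Alg.run, h.1]
    exact ih _ h.2

/-- the set of a question -/
def Query.set : Query → Finset ℕ
  | Query.feas J => J
  | Query.bdd J => J
  | Query.zero J _ => J
  | Query.fin J _ => J

section

variable {k n : ℕ}

/-- the inequalities of the first kind in `J` are those of the tuple -/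
def SpA (k n : ℕ) (a : ℕ → ℕ) (J : Finset ℕ) : Prop :=
  ∀ i < k, ∀ b < n, (i * n + b ∈ J ↔ b = a i)

/-- the inequalities of the second kind in `J` are those outside the tuple -/
def SpB (k n : ℕ) (a : ℕ → ℕ) (J : Finset ℕ) : Prop :=
  ∀ i < k, ∀ b < n, (k * n + (i * n + b) ∈ J ↔ b ≠ a i)

theorem F_out {a : ℕ → ℕ} {J : Finset ℕ} (hJ : ¬ J ⊆ range (2 * (k * n) + k)) :
    (hs k n a).F J = ∅ := by
  rw [Set.eq_empty_iff_forall_notMem]
  rintro x ⟨_, hx⟩
  refine hJ (hx.trans ?_)
  have := Sy.T_sub (Y := hs k n a) x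
  have e : (hs k n a).m = 2 * (k * n) + k := m_hid k n a
  rw [e] at this
  exact this

theorem F_empty' {a : ℕ → ℕ} (hk : 1 ≤ k) {J : Finset ℕ} (h : Hit k n J)
    (h' : ¬ SpA k n a J) : (hs k n a).F J = ∅ := by
  rw [← Set.not_nonempty_iff_eq_empty]
  refine F_empty hk h ?_
  unfold SpA at h'
  push Not at h'
  obtain ⟨i, hi, b, hb, hcase⟩ := h'
  rcases hcase with ⟨h1, h2⟩ | ⟨h1, h2⟩
  · exact ⟨i, hi, b, hb, h1, h2⟩
  · obtain ⟨c, hc, hcJ⟩ := h i hi
    refine ⟨i, hi, c, hc, hcJ, fun h3 => h1 ?_⟩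
    rw [h2, ← h3]
    exact hcJ

/-- the condition under which the faces are unbounded -/
def Hcond (k n : ℕ) (a : ℕ → ℕ) (J : Finset ℕ) : Prop :=
  ∃ i < k, 2 * (k * n) + i ∉ J ∨ ∃ b < n, (b ≠ a i ∧ k * n + (i * n + b) ∉ J) ∨
    (b = a i ∧ k * n + (i * n + b) ∈ J)

theorem hcond_of_not_spB {a : ℕ → ℕ} {J : Finset ℕ} (h : ¬ SpB k n a J) : Hcond k n a J := by
  unfold SpB at h
  push Not at h
  obtain ⟨i, hi, b, hb, hcase⟩ := h
  rcases hcase with ⟨h1, h2⟩ | ⟨h1, h2⟩
  · exact ⟨i, hi, Or.inr ⟨b, hb, Or.inr ⟨h2, h1⟩⟩⟩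
  · exact ⟨i, hi, Or.inr ⟨b, hb, Or.inl ⟨h2, h1⟩⟩⟩

theorem F_unbounded {a : ℕ → ℕ} (hk : 1 ≤ k) (hn : 1 ≤ n) {J : Finset ℕ}
    (hJ : J ⊆ range (2 * (k * n) + k)) (hH : ¬ Hit k n J) (hV : ¬ Van k n J)
    (h : Hcond k n a J) : ¬ Bornology.IsBounded ((hs k n a).F J) := by
  intro hbd
  obtain ⟨C, hC⟩ := hbd.exists_norm_le
  obtain ⟨x, hxF, hsumU, _⟩ := F_slack (a := a) hk hn hJ hH hV h (τ := k * |C| + 1)
    (by positivity)
  have hnorm := hC x hxF
  have hUle : ∀ i < k, U k n x i ≤ |C| := by
    intro i hi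
    have e1 : U k n x i = x ⟨i, by omega⟩ := by
      unfold U co; rw [dif_pos (by omega)]
    rw [e1]
    exact (le_abs_self _).trans ((norm_le_pi_norm x ⟨i, by omega⟩).trans
      (hnorm.trans (le_abs_self C)))
  have e1 : ∑ j ∈ range k, U k n x j ≤ k * |C| := by
    calc ∑ j ∈ range k, U k n x j ≤ ∑ j ∈ range k, |C| :=
          Finset.sum_le_sum fun j hj => hUle j (mem_range.1 hj)
      _ = k * |C| := by simp
  rw [hsumU] at e1
  linarith

/-- the inequalities whose slack vanishes when a group is forced to vanish -/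
def VanZ (k n : ℕ) (J : Finset ℕ) (j : ℕ) : Prop :=
  2 * (k * n) + k ≤ j ∨ (∃ i < k, ∃ b < n, j = k * n + (i * n + b)) ∨
    (∃ i < k, j = 2 * (k * n) + i) ∨ ∃ i < k, (∃ c < n, i * n + c ∈ J) ∧ ∃ b < n, j = i * n + b

open Classical in
/-- the common value of the answers -/
noncomputable def common (k n : ℕ) : Query → Bool
  | Query.feas J => decide (J ⊆ range (2 * (k * n) + k) ∧ ¬ Hit k n J)
  | Query.bdd J => decide (¬ J ⊆ range (2 * (k * n) + k) ∨ Hit k n J ∨ Van k n J)
  | Query.zero J j => decide (¬ J ⊆ range (2 * (k * n) + k) ∨ Hit k n J ∨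
      (Van k n J ∧ VanZ k n J j) ∨ (¬ Van k n J ∧ Cl k n J j))
  | Query.fin J j => decide (¬ J ⊆ range (2 * (k * n) + k) ∨ Hit k n J ∨ Van k n J ∨
      Cl k n J j)

theorem slack_out {a : ℕ → ℕ} {j : ℕ} (hj : 2 * (k * n) + k ≤ j) (x : Fin (k + k * n) → ℝ) :
    (hs k n a).r j - (hs k n a).g j ⬝ᵥ x = 0 := by
  have h1 : (hid k n a).2.getD j ([], 0) = ([], 0) :=
    List.getD_eq_default _ _ (by rw [length_hid]; exact hj)
  have h2 : (hs k n a).r j = 0 := by
    change ((((hid k n a).2.getD j ([], 0)).2 : ℚ) : ℝ) = 0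
    rw [h1]; simp
  have h3 : (hs k n a).g j ⬝ᵥ x = 0 := by
    change ∑ t : Fin (k + k * n), ((((hid k n a).2.getD j ([], 0)).1.getD t 0 : ℚ) : ℝ) * x t = 0
    rw [h1]; simp
  rw [h2, h3, sub_zero]

theorem cl_zero {a : ℕ → ℕ} {J : Finset ℕ} {j : ℕ} (h : Cl k n J j)
    {x : Fin (k + k * n) → ℝ} (hx : x ∈ (hs k n a).F J) :
    (hs k n a).r j - (hs k n a).g j ⬝ᵥ x = 0 := by
  rcases h with h | h | ⟨i, hi, ⟨b, hb, hA, hB⟩, c, hc, hj⟩
  · rw [(Sy.mem_T.1 (hx.2 h)).2, sub_self]
  · exact slack_out h x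
  · have hP := mem_P.1 hx.1
    have e1 := (mem_TA hi hb).1 (hx.2 hA)
    have e2 := (mem_TB hi hb).1 (hx.2 hB)
    rw [e2, mul_zero] at e1
    have e3 := hP.1 i hi c hc
    rw [← e1] at e3
    have e4 := hP.2.1 i hi c hc
    have e5 := al_pos a i c
    have e6 : X k n x i c = 0 := by
      by_contra hne
      have e6 : 0 < X k n x i c := lt_of_le_of_ne e4 (Ne.symm hne)
      have := mul_pos e5 e6
      linarith
    have hlt := idx_lt hi hc
    rcases hj with rfl | rfl
    · rw [rAB (by omega), gA i c hi hc, e6, ← e1]; ring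
    · rw [rAB (by omega), gB i c hi hc, e6]; ring

theorem answers_common (hk : 1 ≤ k) (hn : 1 ≤ n) (a : ℕ → ℕ) (q : Query)
    (hg1 : Hit k n q.set → (hs k n a).F q.set = ∅)
    (hg2 : ¬ Hit k n q.set → ¬ Van k n q.set → Hcond k n a q.set) :
    answers (hid k n a) q = common k n q := by
  classical
  cases q with
  | feas J =>
    simp only [Query.set] at hg1 hg2
    simp only [answers, common, decide_eq_decide]
    rw [face_eq]
    change ((hs k n a).F J).Nonempty ↔ _
    constructor
    · intro h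
      by_contra hcon
      by_cases hJ : J ⊆ range (2 * (k * n) + k)
      · have hH : Hit k n J := by
          by_contra hH
          exact hcon ⟨hJ, hH⟩
        rw [hg1 hH] at h
        exact Set.not_nonempty_empty h
      · rw [F_out hJ] at h
        exact Set.not_nonempty_empty h
    · rintro ⟨hJ, hH⟩
      exact F_nonempty hJ hH
  | bdd J =>
    simp only [Query.set] at hg1 hg2
    simp only [answers, common, decide_eq_decide]
    rw [face_eq]
    change Bornology.IsBounded ((hs k n a).F J) ↔ _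
    constructor
    · intro h
      by_contra hcon
      push Not at hcon
      exact F_unbounded hk hn hcon.1 hcon.2.1 hcon.2.2 (hg2 hcon.2.1 hcon.2.2) h
    · rintro (h | h | h)
      · rw [F_out h]
        exact Bornology.isBounded_empty
      · rw [hg1 h]
        exact Bornology.isBounded_empty
      · exact F_bounded hk hn h
  | zero J j =>
    simp only [Query.set] at hg1 hg2
    simp only [answers, common, decide_eq_decide]
    rw [face_eq]
    change (∀ x ∈ (hs k n a).F J, (hs k n a).r j - (hs k n a).g j ⬝ᵥ x = 0) ↔ _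
    constructor
    · intro h
      by_cases hJ : J ⊆ range (2 * (k * n) + k)
      swap
      · exact Or.inl hJ
      by_cases hH : Hit k n J
      · exact Or.inr (Or.inl hH)
      by_cases hV : Van k n J
      · refine Or.inr (Or.inr (Or.inl ⟨hV, ?_⟩))
        by_cases hj : 2 * (k * n) + k ≤ j
        · exact Or.inl hj
        rcases cases_idx (k := k) (n := n) (j := j) (by omega) with ⟨i, hi, b, hb, rfl⟩ |
          ⟨i, hi, b, hb, rfl⟩ | ⟨i, hi, rfl⟩
        · refine Or.inr (Or.inr (Or.inr ⟨i, hi, ?_, b, hb, rfl⟩))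
          by_contra hcon
          push Not at hcon
          obtain ⟨x, hx, hU, hX⟩ := point_missing (a := a) hJ hi hcon
          have e1 := h x hx
          have hlt := idx_lt hi hb
          rw [rAB (by omega), gA i b hi hb, hX b hb, hU] at e1
          norm_num at e1
        · exact Or.inr (Or.inl ⟨i, hi, b, hb, rfl⟩)
        · exact Or.inr (Or.inr (Or.inl ⟨i, hi, rfl⟩))
      · refine Or.inr (Or.inr (Or.inr ⟨hV, ?_⟩))
        by_contra hcl
        by_cases hj : 2 * (k * n) + k ≤ j
        · exact hcl (Or.inr (Or.inl hj))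
        obtain ⟨x, hxF, _, hsl⟩ := F_slack (a := a) hk hn hJ hH hV (hg2 hH hV) one_pos
        have e1 := hsl j (by omega) hcl
        rw [h x hxF] at e1
        have e2 : (0 : ℝ) < 1 / (16 * (k : ℝ) ^ 2 * n) := by positivity
        linarith
    · rintro (h | h | ⟨hV, hz⟩ | ⟨_, hcl⟩) x hx
      · rw [F_out h] at hx
        exact absurd hx (Set.notMem_empty _)
      · rw [hg1 h] at hx
        exact absurd hx (Set.notMem_empty _)
      · obtain ⟨h1, h2, h3⟩ := van_facts hk hn hV hx
        rcases hz with hz | ⟨i, hi, b, hb, rfl⟩ | ⟨i, hi, rfl⟩ | ⟨i, hi, ⟨c, hc, hcJ⟩, b, hb, rfl⟩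
        · exact slack_out hz x
        · have hlt := idx_lt hi hb
          rw [rAB (by omega), gB i b hi hb, h2 i hi b hb]; ring
        · rw [rC hi, gC i hi, h1, Finset.sum_eq_zero fun b hb => h2 i hi b (mem_range.1 hb)]
          ring
        · have hlt := idx_lt hi hb
          have e1 := (mem_TA hi hc).1 (hx.2 hcJ)
          rw [h2 i hi c hc, mul_zero] at e1
          rw [rAB (by omega), gA i b hi hb, h2 i hi b hb, ← e1]; ring
      · exact cl_zero hcl hx
  | fin J j =>
    simp only [Query.set] at hg1 hg2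
    simp only [answers, common, decide_eq_decide]
    rw [face_eq]
    change (∃ C : ℝ, ∀ x ∈ (hs k n a).F J, (hs k n a).r j - (hs k n a).g j ⬝ᵥ x ≤ C) ↔ _
    constructor
    · rintro ⟨C, hC⟩
      by_contra hcon
      push Not at hcon
      obtain ⟨hJ, hH, hV, hcl⟩ := hcon
      have hj : j < 2 * (k * n) + k := by
        by_contra hj
        exact hcl (Or.inr (Or.inl (by omega)))
      have hk0 : (0 : ℝ) < k := by exact_mod_cast (show 0 < k by omega)
      have hn0 : (0 : ℝ) < n := by exact_mod_cast (show 0 < n by omega)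
      have hD : (0 : ℝ) < 16 * (k : ℝ) ^ 2 * n := by positivity
      obtain ⟨x, hxF, _, hsl⟩ := F_slack (a := a) hk hn hJ hH hV (hg2 hH hV)
        (τ := (16 * (k : ℝ) ^ 2 * n) * (|C| + 1)) (by positivity)
      have e1 := hsl j hj hcl
      rw [mul_div_cancel_left₀ _ hD.ne'] at e1
      have e2 := hC x hxF
      have e3 := le_abs_self C
      linarith
    · rintro (h | h | h | h)
      · exact ⟨0, fun x hx => by rw [F_out h] at hx; exact absurd hx (Set.notMem_empty _)⟩
      · exact ⟨0, fun x hx => by rw [hg1 h] at hx; exact absurd hx (Set.notMem_empty _)⟩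
      · refine ⟨1, fun x hx => ?_⟩
        obtain ⟨h1, h2, h3⟩ := van_facts hk hn h hx
        by_cases hj : 2 * (k * n) + k ≤ j
        · rw [slack_out hj]; exact zero_le_one
        rcases cases_idx (k := k) (n := n) (j := j) (by omega) with ⟨i, hi, b, hb, rfl⟩ |
          ⟨i, hi, b, hb, rfl⟩ | ⟨i, hi, rfl⟩
        · have hlt := idx_lt hi hb
          rw [rAB (by omega), gA i b hi hb, h2 i hi b hb]
          have : U k n x i ≤ 1 := by
            rw [← h1]
            exact Finset.single_le_sum (f := fun j => U k n x j)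
              (fun c hc => h3 c (mem_range.1 hc)) (mem_range.2 hi)
          linarith
        · have hlt := idx_lt hi hb
          rw [rAB (by omega), gB i b hi hb, h2 i hi b hb]; norm_num
        · rw [rC hi, gC i hi, h1, Finset.sum_eq_zero fun b hb => h2 i hi b (mem_range.1 hb)]
          norm_num
      · exact ⟨0, fun x hx => (cl_zero h hx).le⟩

theorem answers_eq (hk : 1 ≤ k) (hn : 1 ≤ n) (a : ℕ → ℕ) (q : Query)
    (h1 : ¬ SpA k n a q.set) (h2 : ¬ SpB k n a q.set) :
    answers (hid k n a) q = common k n q :=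
  answers_common hk hn a q (fun hH => F_empty' hk hH h1) fun _ _ => hcond_of_not_spB h2

/-- the system without a hidden vertex -/
theorem not_spA (hk : 1 ≤ k) {a : ℕ → ℕ} (ha : ∀ i, n ≤ a i) {J : Finset ℕ}
    (hH : Hit k n J) : ¬ SpA k n a J := by
  intro h
  obtain ⟨b, hb, hJ⟩ := hH 0 (by omega)
  have := (h 0 (by omega) b hb).1 hJ
  have := ha 0
  omega

theorem answers_zero (hk : 1 ≤ k) (hn : 1 ≤ n) {a : ℕ → ℕ} (ha : ∀ i, n ≤ a i) (q : Query) :
    answers (hid k n a) q = common k n q := by
  refine answers_common hk hn a q (fun hH => F_empty' hk hH (not_spA hk ha hH)) fun _ hV => ?_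
  refine ⟨0, by omega, ?_⟩
  by_cases hC : 2 * (k * n) + 0 ∈ q.set
  · right
    by_contra hno
    push Not at hno
    refine hV ⟨0, by omega, hC, Or.inr fun b hb => ?_⟩
    by_contra hB
    exact hB ((hno b hb).1 (fun h3 => by have := ha 0; omega))
  · exact Or.inl hC

/-! ### the hidden vertex -/

/-- the hidden vertex -/
noncomputable def wv (k n : ℕ) (a : ℕ → ℕ) : Fin (k + k * n) → ℝ :=
  mkv k n (fun _ => 4) fun i b => if b = a i then 2 else 0

theorem wv_mem (a : ℕ → ℕ) (ha : ∀ i < k, a i < n) :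
    wv k n a ∈ (hs k n a).P ∧ (∀ i < k, U k n (wv k n a) i = 4) ∧
      (∀ i < k, ∀ b < n, X k n (wv k n a) i b = if b = a i then 2 else 0) ∧
      ∀ i < k, 2 * (k * n) + i ∈ (hs k n a).T (wv k n a) := by
  have hU : ∀ i < k, U k n (wv k n a) i = 4 := fun i hi => by rw [wv, U_mkv hi]
  have hX : ∀ i < k, ∀ b < n, X k n (wv k n a) i b = if b = a i then 2 else 0 :=
    fun i hi b hb => by rw [wv, X_mkv hi hb]
  have hsU : ∑ j ∈ range k, U k n (wv k n a) j = 4 * k := by
    rw [Finset.sum_congr rfl fun j hj => hU j (mem_range.1 hj)]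
    simp [mul_comm]
  have hsX : ∀ i < k, ∑ b ∈ range n, X k n (wv k n a) i b = 2 := by
    intro i hi
    rw [Finset.sum_congr rfl fun b hb => hX i hi b (mem_range.1 hb), Finset.sum_ite_eq',
      if_pos (mem_range.2 (ha i hi))]
  refine ⟨mem_P.2 ⟨fun i hi b hb => ?_, fun i hi b hb => ?_, fun i hi => ?_⟩, hU, hX,
    fun i hi => ?_⟩
  · rw [hU i hi, hX i hi b hb]
    split_ifs with h
    · rw [al_two h]; norm_num
    · rw [mul_zero]; norm_num
  · rw [hX i hi b hb]; split_ifs <;> norm_num
  · rw [hsX i hi, hsU]; linarith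
  · rw [mem_TC hi, hsX i hi, hsU]; ring

theorem hidden_mem (hk : 1 ≤ k) {a : ℕ → ℕ} (ha : ∀ i < k, a i < n) :
    (hs k n a).T (wv k n a) ∈ Sy.TF (hs k n a) := by
  obtain ⟨h1, h2, h3, h4⟩ := wv_mem (n := n) a ha
  refine ⟨wv k n a, h1, rfl, ?_⟩
  have hK := K_pos hk
  have hsub : (hs k n a).F ((hs k n a).T (wv k n a)) ⊆ {wv k n a} := by
    rintro x ⟨hx, hT⟩
    have hX0 : ∀ i < k, ∀ b < n, b ≠ a i → X k n x i b = 0 := by
      intro i hi b hb hne
      exact (mem_TB hi hb).1 (hT ((mem_TB hi hb).2 (by rw [h3 i hi b hb, if_neg hne])))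
    have hA : ∀ i < k, 2 * X k n x i (a i) = U k n x i := by
      intro i hi
      have e1 := (mem_TA (a := a) hi (ha i hi)).1 (hT ((mem_TA hi (ha i hi)).2 (by
        rw [h3 i hi _ (ha i hi), if_pos rfl, h2 i hi, al_two rfl]; norm_num)))
      rwa [al_two rfl] at e1
    have hs : ∀ i < k, ∑ b ∈ range n, X k n x i b = X k n x i (a i) := by
      intro i hi
      refine Finset.sum_eq_single_of_mem _ (mem_range.2 (ha i hi)) fun b hb hne => ?_
      exact hX0 i hi b (mem_range.1 hb) hne
    have hC : ∀ i < k, (2 * (k : ℝ) - 1 / 2) * U k n x i = 2 * (∑ j ∈ range k, U k n x j - 1) := by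
      intro i hi
      have e1 := (mem_TC hi).1 (hT (h4 i hi))
      rw [hs i hi] at e1
      rw [← hA i hi, ← e1]; ring
    have hsum : ∑ j ∈ range k, U k n x j = 4 * k := by
      have e1 : ∑ i ∈ range k, (2 * (k : ℝ) - 1 / 2) * U k n x i =
          ∑ i ∈ range k, 2 * (∑ j ∈ range k, U k n x j - 1) :=
        Finset.sum_congr rfl fun i hi => hC i (mem_range.1 hi)
      rw [← Finset.mul_sum, Finset.sum_const, card_range, nsmul_eq_mul] at e1
      linarith
    have hU : ∀ i < k, U k n x i = 4 := by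
      intro i hi
      have e1 := hC i hi
      rw [hsum] at e1
      have e2 : (2 * (k : ℝ) - 1 / 2) * U k n x i = (2 * (k : ℝ) - 1 / 2) * 4 := by linarith
      exact mul_left_cancel₀ hK.ne' e2
    refine ext_UX (fun i hi => by rw [hU i hi, h2 i hi]) fun i hi b hb => ?_
    rw [h3 i hi b hb]
    split_ifs with hc
    · have := hA i hi
      rw [hU i hi] at this
      rw [hc]; linarith
    · exact hX0 i hi b hb hc
  exact Bornology.isBounded_singleton.subset hsub

theorem hidden_notMem (hk : 1 ≤ k) {a a0 : ℕ → ℕ} (ha : ∀ i < k, a i < n)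
    (ha0 : ∀ i, n ≤ a0 i) : (hs k n a).T (wv k n a) ∉ Sy.TF (hs k n a0) := by
  rintro ⟨x, hx, hxT, _⟩
  obtain ⟨h1, h2, h3, h4⟩ := wv_mem (n := n) a ha
  have hH : Hit k n ((hs k n a).T (wv k n a)) := fun i hi => ⟨a i, ha i hi, by
    rw [mem_TA hi (ha i hi), h3 i hi _ (ha i hi), if_pos rfl, h2 i hi, al_two rfl]; norm_num⟩
  have := F_empty' (a := a0) hk hH (not_spA hk ha0 hH)
  have hx' : x ∈ (hs k n a0).F ((hs k n a).T (wv k n a)) := ⟨hx, by rw [hxT]⟩
  rw [this] at hx'
  exact hx'

/-! ### pointed, unbounded -/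

theorem extreme (hk : 1 ≤ k) (hn : 1 ≤ n) (a : ℕ → ℕ) :
    ((polyhedron (hid k n a)).extremePoints ℝ).Nonempty := by
  set e := mkv k n (fun i => if i = 0 then 1 else 0) fun _ _ => 0 with he
  have hU : ∀ i < k, U k n e i = if i = 0 then 1 else 0 := fun i hi => by rw [he, U_mkv hi]
  have hX : ∀ i < k, ∀ b < n, X k n e i b = 0 := fun i hi b hb => by rw [he, X_mkv hi hb]
  have hsU : ∑ j ∈ range k, U k n e j = 1 := by
    rw [Finset.sum_congr rfl fun j hj => hU j (mem_range.1 hj), Finset.sum_ite_eq',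
      if_pos (mem_range.2 (by omega))]
  have hsX : ∀ i < k, ∑ b ∈ range n, X k n e i b = 0 := fun i hi =>
    Finset.sum_eq_zero fun b hb => hX i hi b (mem_range.1 hb)
  have heP : e ∈ (hs k n a).P := by
    rw [mem_P]
    refine ⟨fun i hi b hb => ?_, fun i hi b hb => (hX i hi b hb).ge, fun i hi => ?_⟩
    · rw [hX i hi b hb, hU i hi]
      split_ifs <;> simp
    · rw [hsX i hi, hsU]; simp
  have huniq : ∀ y ∈ (hs k n a).P, (hs k n a).T e ⊆ (hs k n a).T y → y = e := by
    intro y hy hT
    have hX' : ∀ i < k, ∀ b < n, X k n y i b = 0 := fun i hi b hb =>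
      (mem_TB hi hb).1 (hT ((mem_TB hi hb).2 (hX i hi b hb)))
    have hU' : ∀ i < k, i ≠ 0 → U k n y i = 0 := by
      intro i hi hne
      have := (mem_TA hi (show 0 < n by omega)).1 (hT ((mem_TA hi (show 0 < n by omega)).2 (by
        rw [hX i hi 0 (by omega), hU i hi, if_neg hne, mul_zero])))
      rw [hX' i hi 0 (by omega), mul_zero] at this
      exact this.symm
    have hC := (mem_TC (show 0 < k by omega)).1 (hT ((mem_TC (show 0 < k by omega)).2 (by
      rw [hsX 0 (by omega), hsU]; simp)))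
    have hs0 : ∑ b ∈ range n, X k n y 0 b = 0 :=
      Finset.sum_eq_zero fun b hb => hX' 0 (by omega) b (mem_range.1 hb)
    rw [hs0, mul_zero, Finset.sum_eq_single_of_mem 0 (mem_range.2 (by omega))
      (fun i hi hne => hU' i (mem_range.1 hi) hne)] at hC
    refine ext_UX (fun i hi => ?_) fun i hi b hb => by rw [hX' i hi b hb, hX i hi b hb]
    rw [hU i hi]
    split_ifs with h0
    · rw [h0]; linarith
    · exact hU' i hi h0
  refine ⟨e, ?_⟩
  rw [polyhedron_eq]
  change e ∈ ((hs k n a).P).extremePoints ℝ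
  rw [mem_extremePoints]
  refine ⟨heP, fun y hy z hz hyz => ?_⟩
  obtain ⟨s, t, hs1, ht1, hst, hcomb⟩ := hyz
  obtain ⟨_, h2⟩ := Sy.comb_mem (Y := hs k n a) hy hz hs1 ht1 hst
  rw [hcomb] at h2
  exact ⟨huniq y hy (by rw [h2]; exact inter_subset_left),
    huniq z hz (by rw [h2]; exact inter_subset_right)⟩

theorem instance_hid (hk : 1 ≤ k) (hn : 1 ≤ n) (a : ℕ → ℕ) : Instance (hid k n a) := by
  refine ⟨?_, extreme hk hn a, ?_⟩
  · intro r hr
    simp only [hid, List.mem_map, List.mem_range] at hr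
    obtain ⟨j, _, rfl⟩ := hr
    simp [hid]
  · rw [polyhedron_eq]
    change ¬ Bornology.IsBounded (hs k n a).P
    have h := F_unbounded (n := n) (a := a) hk hn (J := ∅) (Finset.empty_subset _) (by
      intro h
      obtain ⟨b, _, hb⟩ := h 0 (by omega)
      exact absurd hb (notMem_empty _)) (by
      rintro ⟨i, _, hi, _⟩
      exact absurd hi (notMem_empty _)) ⟨0, by omega, Or.inl (notMem_empty _)⟩
    refine fun hb => h (hb.subset fun x hx => hx.1)

/-! ### the number of bounded faces without a hidden vertex -/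

theorem ncard_zero (hk : 1 ≤ k) (hn : 1 ≤ n) {a : ℕ → ℕ} (ha : ∀ i, n ≤ a i) :
    (boundedFaces (hid k n a)).ncard = 2 ^ k - 1 := by
  classical
  rw [ncard_boundedFaces]
  change (Sy.TF (hs k n a)).ncard = 2 ^ k - 1
  apply le_antisymm
  · have hfacts : ∀ T ∈ Sy.TF (hs k n a), ∃ x, (hs k n a).T x = T ∧
        ∑ j ∈ range k, U k n x j = 1 ∧ (∀ i < k, ∀ b < n, X k n x i b = 0) ∧
        ∀ i < k, 0 ≤ U k n x i := by
      rintro T ⟨x, hx, rfl, hb⟩
      have hxF : x ∈ (hs k n a).F ((hs k n a).T x) := ⟨hx, Finset.Subset.rfl⟩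
      have hH : ¬ Hit k n ((hs k n a).T x) := by
        intro hH
        have := F_empty' (a := a) hk hH (not_spA hk ha hH)
        rw [this] at hxF
        exact hxF
      have hb' : answers (hid k n a) (Query.bdd ((hs k n a).T x)) = true :=
        (bdd_answers _ _).2 hb
      rw [answers_zero hk hn ha] at hb'
      simp only [common, decide_eq_true_eq] at hb'
      have hV : Van k n ((hs k n a).T x) := by
        rcases hb' with h | h | h
        · refine absurd ?_ h
          have := Sy.T_sub (Y := hs k n a) x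
          have e : (hs k n a).m = 2 * (k * n) + k := m_hid k n a
          rw [e] at this
          exact this
        · exact absurd h hH
        · exact h
      exact ⟨x, rfl, van_facts hk hn hV hxF⟩
    have hmem : ∀ x, ∑ j ∈ range k, U k n x j = 1 → (∀ i < k, ∀ b < n, X k n x i b = 0) →
        (∀ i < k, ∀ b < n, i * n + b ∈ (hs k n a).T x ↔ U k n x i = 0) ∧
        (∀ i < k, ∀ b < n, k * n + (i * n + b) ∈ (hs k n a).T x) ∧
        ∀ i < k, 2 * (k * n) + i ∈ (hs k n a).T x := by
      intro x h1 h2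
      refine ⟨fun i hi b hb => ?_, fun i hi b hb => (mem_TB hi hb).2 (h2 i hi b hb),
        fun i hi => (mem_TC hi).2 ?_⟩
      · rw [mem_TA hi hb, h2 i hi b hb, mul_zero]
        exact eq_comm
      · rw [h1, Finset.sum_eq_zero fun b hb => h2 i hi b (mem_range.1 hb)]; simp
    have hcard : ((range k).powerset.erase ∅).card = 2 ^ k - 1 := by
      rw [Finset.card_erase_of_mem (Finset.mem_powerset.2 (Finset.empty_subset _)),
        Finset.card_powerset, card_range]
    rw [← hcard, ← Set.ncard_coe_finset]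
    refine Set.ncard_le_ncard_of_injOn
      (fun T => (range k).filter fun i => i * n + 0 ∉ T) ?_ ?_ (Finset.finite_toSet _)
    · intro T hT
      obtain ⟨x, rfl, h1, h2, h3⟩ := hfacts T hT
      obtain ⟨m1, _, _⟩ := hmem x h1 h2
      rw [Finset.mem_coe, Finset.mem_erase, Finset.mem_powerset]
      refine ⟨fun he => ?_, filter_subset _ _⟩
      have : ∑ j ∈ range k, U k n x j = 0 := by
        refine Finset.sum_eq_zero fun i hi => ?_
        by_contra hne
        have : i ∈ (range k).filter fun i => i * n + 0 ∉ (hs k n a).T x :=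
          mem_filter.2 ⟨hi, fun h => hne ((m1 i (mem_range.1 hi) 0 (by omega)).1 h)⟩
        rw [he] at this
        exact absurd this (notMem_empty _)
      rw [h1] at this
      exact one_ne_zero this
    · intro T hT T' hT' he
      obtain ⟨x, rfl, h1, h2, h3⟩ := hfacts T hT
      obtain ⟨x', rfl, h1', h2', h3'⟩ := hfacts T' hT'
      obtain ⟨m1, m2, m3⟩ := hmem x h1 h2
      obtain ⟨m1', m2', m3'⟩ := hmem x' h1' h2'
      have hz : ∀ i < k, (U k n x i = 0 ↔ U k n x' i = 0) := by
        intro i hi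
        have e1 : i ∈ ((range k).filter fun i => i * n + 0 ∉ (hs k n a).T x) ↔
            i ∈ ((range k).filter fun i => i * n + 0 ∉ (hs k n a).T x') := by
          have he' : ((range k).filter fun i => i * n + 0 ∉ (hs k n a).T x) =
            ((range k).filter fun i => i * n + 0 ∉ (hs k n a).T x') := he
          rw [he']
        rw [mem_filter, mem_filter, m1 i hi 0 (by omega), m1' i hi 0 (by omega)] at e1
        have e2 := mem_range.2 hi
        tauto
      ext j
      have hle : ∀ y, j ∈ (hs k n a).T y → j < 2 * (k * n) + k := fun y hj => by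
        have := (Sy.mem_T.1 hj).1
        have e : (hs k n a).m = 2 * (k * n) + k := m_hid k n a
        rwa [e] at this
      have key : j < 2 * (k * n) + k → (j ∈ (hs k n a).T x ↔ j ∈ (hs k n a).T x') := by
        intro hj
        rcases cases_idx hj with ⟨i, hi, b, hb, rfl⟩ | ⟨i, hi, b, hb, rfl⟩ | ⟨i, hi, rfl⟩
        · rw [m1 i hi b hb, m1' i hi b hb]; exact hz i hi
        · exact ⟨fun _ => m2' i hi b hb, fun _ => m2 i hi b hb⟩
        · exact ⟨fun _ => m3' i hi, fun _ => m3 i hi⟩
      exact ⟨fun h => (key (hle x h)).1 h, fun h => (key (hle x' h)).2 h⟩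
  · -- the Helly bound for the set of the inequalities `x_{i0} ≤ u_i`
    set J : Finset ℕ := (range k).image fun i => i * n + 0 with hJ
    have hJm : J ⊆ range (2 * (k * n) + k) := by
      intro j hj
      obtain ⟨i, hi, rfl⟩ := mem_image.1 hj
      have := idx_lt (mem_range.1 hi) (show 0 < n by omega)
      rw [mem_range]; omega
    have hcard : J.card = k := by
      rw [hJ, Finset.card_image_of_injOn, card_range]
      intro i _ i' _ h
      exact (idx_inj (show 0 < n by omega) (show 0 < n by omega) h).1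
    have hH : Hit k n J := fun i hi => ⟨0, by omega, mem_image.2 ⟨i, mem_range.2 hi, rfl⟩⟩
    have hNL := nl_of_extreme _ (extreme (k := k) (n := n) hk hn a)
    have h1 := Sy.helly (Y := hs k n a) hNL (J := J) (by
        have e : (hs k n a).m = 2 * (k * n) + k := m_hid k n a
        rw [e]; exact hJm)
      (fun h => by
        rw [F_empty' (a := a) hk hH (not_spA hk ha hH)] at h
        exact Set.not_nonempty_empty h)
      (fun j hj => by
        obtain ⟨i, hi, rfl⟩ := mem_image.1 hj
        refine F_nonempty ((erase_subset _ _).trans hJm) fun hH' => ?_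
        obtain ⟨b, hb, hbJ⟩ := hH' i (mem_range.1 hi)
        obtain ⟨h2, h3⟩ := mem_erase.1 hbJ
        obtain ⟨i', hi', h4⟩ := mem_image.1 h3
        obtain ⟨rfl, rfl⟩ := idx_inj (show 0 < n by omega) hb h4
        exact h2 rfl)
    rw [hcard] at h1
    omega

/-- the tuple extended by zeros -/
def tup (k n : ℕ) (a : Fin k → Fin n) (i : ℕ) : ℕ := if h : i < k then (a ⟨i, h⟩ : ℕ) else 0

theorem tup_lt (a : Fin k → Fin n) (i : ℕ) (hi : i < k) : tup k n a i < n := by
  unfold tup; rw [dif_pos hi]; exact (a ⟨i, hi⟩).2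

/-- **Lower bound.** -/
theorem lower (hk : 1 ≤ k) (hn : 1 ≤ n) (A : Alg (List (List ℕ) × List (ℕ × ℕ)))
    (hA : ∀ S : LinSys, Instance S → S.2.length = 2 * (k * n) + k →
      IsHasse S (A.run (answers S))) :
    Instance (hid k n fun _ => n) ∧ (hid k n fun _ => n).2.length = 2 * (k * n) + k ∧
      (boundedFaces (hid k n fun _ => n)).ncard = 2 ^ k - 1 ∧
      n ^ k ≤ 2 * A.cost (answers (hid k n fun _ => n)) := by
  classical
  have ha0 : ∀ i, n ≤ (fun _ : ℕ => n) i := fun _ => le_rfl
  refine ⟨instance_hid hk hn _, length_hid k n _, ncard_zero hk hn ha0, ?_⟩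
  set S0 := hid k n fun _ => n with hS0
  set l := A.asked (answers S0) with hl
  have hlen : l.length = A.cost (answers S0) := length_asked _ _
  -- each tuple needs a special question
  have key : ∀ a : Fin k → Fin n, ∃ q ∈ l, SpA k n (tup k n a) q.set ∨ SpB k n (tup k n a) q.set := by
    intro a
    by_contra hcon
    push Not at hcon
    have hrun : A.run (answers (hid k n (tup k n a))) = A.run (answers S0) := by
      refine run_congr A fun q hq => ?_
      have h1 := hcon q hq
      rw [answers_eq hk hn _ q h1.1 h1.2, answers_zero hk hn ha0 q]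
    have h1 := hA S0 (instance_hid hk hn _) (length_hid k n _)
    have h2 := hA (hid k n (tup k n a)) (instance_hid hk hn _) (length_hid k n _)
    rw [hrun] at h2
    set H := A.run (answers S0) with hH
    have hmem : (hs k n (tup k n a)).T (wv k n (tup k n a)) ∈ Sy.TF (hs k n (tup k n a)) :=
      hidden_mem hk (tup_lt a)
    set T := (hs k n (tup k n a)).T (wv k n (tup k n a)) with hT
    have h3 : lst (2 * (k * n) + k) T ∈ H.1 := by
      rw [h2.2.1]
      refine ⟨(sy (hid k n (tup k n a))).F T, (mem_boundedFaces _ _).2 ⟨T, hmem, rfl⟩, ?_⟩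
      rw [tight_F _ hmem, length_hid]
    rw [h1.2.1] at h3
    obtain ⟨G, hG, hGt⟩ := h3
    obtain ⟨T', hT', rfl⟩ := (mem_boundedFaces _ _).1 hG
    rw [tight_F _ hT', length_hid] at hGt
    have h4 : T' = T := by
      refine lst_inj ?_ ?_ hGt
      · have := TF_sub _ hT'
        rwa [length_hid] at this
      · have := TF_sub _ hmem
        rwa [length_hid] at this
    rw [h4] at hT'
    exact hidden_notMem hk (tup_lt a) ha0 hT'
  choose q hq hsp using key
  have hidx : ∀ a, ∃ i : Fin l.length, l.get i = q a := fun a => by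
    obtain ⟨i, hi, h⟩ := List.getElem_of_mem (hq a)
    exact ⟨⟨i, hi⟩, h⟩
  choose idx hidx using hidx
  have hinj : Function.Injective fun a : Fin k → Fin n =>
      (idx a, decide (SpA k n (tup k n a) (q a).set)) := by
    intro a a' he
    simp only [Prod.mk.injEq] at he
    obtain ⟨h1, h2⟩ := he
    have hqq : q a = q a' := by rw [← hidx a, ← hidx a', h1]
    rw [hqq, decide_eq_decide] at h2
    have hval : ∀ i < k, tup k n a i = tup k n a' i := by
      by_cases hs : SpA k n (tup k n a) (q a').set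
      · have hs' := h2.1 hs
        intro i hi
        exact (hs' i hi _ (tup_lt a i hi)).1 ((hs i hi _ (tup_lt a i hi)).2 rfl)
      · have hs' : ¬ SpA k n (tup k n a') (q a').set := fun h => hs (h2.2 h)
        have h3 := hsp a
        rw [hqq] at h3
        have h4 := h3.resolve_left hs
        have h5 := (hsp a').resolve_left hs'
        intro i hi
        by_contra hne
        exact (h4 i hi _ (tup_lt a i hi)).1 ((h5 i hi _ (tup_lt a i hi)).2 hne) rfl
    funext i
    have := hval i i.2
    unfold tup at this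
    rw [dif_pos i.2, dif_pos i.2] at this
    exact Fin.ext this
  have hcard := Fintype.card_le_of_injective _ hinj
  rw [Fintype.card_fun, Fintype.card_fin, Fintype.card_fin, Fintype.card_prod, Fintype.card_fin,
    Fintype.card_bool, hlen] at hcard
  omega

end

end Pool.Agent.V7H11.LF
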