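import Mathlib.Data.Finset.Basic
import Mathlib.Data.Finset.Powerset
import Mathlib.Data.List.Basic
import Mathlib.Tactic

/-!
# Algorithms that ask linear programs about a polyhedron

The polyhedron is hidden behind an oracle. A query names a set `J` of (numbers of) inequalities and
asks about the set `face S J` of the points of the polyhedron at which all inequalities of `J` are
tight: whether it is nonempty, whether it is bounded, whether the slack of the inequality with
number `i` vanishes on it, or whether this slack is bounded on it. The cost of a run is the number
of its queries.
-/

set_option autoImplicit false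

namespace Pool.Agent.V7H11.LF

open Finset

/-- a question about the set of the points of the polyhedron at which all inequalities with
numbers in `J` are tight: is it nonempty, is it bounded, is the slack of the inequality number `i`
zero on it, is this slack bounded on it -/
inductive Query : Type
  | feas (J : Finset ℕ) : Query
  | bdd (J : Finset ℕ) : Query
  | zero (J : Finset ℕ) (i : ℕ) : Query
  | fin (J : Finset ℕ) (i : ℕ) : Query

/-- a decision tree: stop with an output, or ask a question and go on according to the answer -/
inductive Alg (α : Type) : Type
  | out (a : α) : Alg α
  | ask (q : Query) (k : Bool → Alg α) : Alg α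

namespace Alg

variable {α β : Type}

/-- the output, when the questions are answered by `o` -/
def run (o : Query → Bool) : Alg α → α
  | out a => a
  | ask q k => (k (o q)).run o

/-- the number of questions asked, when they are answered by `o` -/
def cost (o : Query → Bool) : Alg α → ℕ
  | out _ => 0
  | ask q k => (k (o q)).cost o + 1

/-- first `A`, then the algorithm that depends on its output -/
def bind : Alg α → (α → Alg β) → Alg β
  | out a, f => f a
  | ask q k, f => ask q fun b => (k b).bind f

theorem run_bind (o : Query → Bool) (A : Alg α) (f : α → Alg β) :
    (A.bind f).run o = (f (A.run o)).run o := by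
  induction A with
  | out a => rfl
  | ask q k ih => exact ih (o q)

theorem cost_bind (o : Query → Bool) (A : Alg α) (f : α → Alg β) :
    (A.bind f).cost o = A.cost o + (f (A.run o)).cost o := by
  induction A with
  | out a => simp [bind, cost, run]
  | ask q k ih =>
    change ((k (o q)).bind f).cost o + 1 = (k (o q)).cost o + 1 + (f ((k (o q)).run o)).cost o
    rw [ih (o q)]; omega

end Alg

open Alg

/-- apply `f` to all members of the list and join the outputs -/
def flatA (f : Finset ℕ → Alg (List (Finset ℕ))) : List (Finset ℕ) → Alg (List (Finset ℕ))
  | [] => out []
  | A :: L => (f A).bind fun X => (flatA f L).bind fun Z => out (X ++ Z)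

theorem run_flatA (o : Query → Bool) (f : Finset ℕ → Alg (List (Finset ℕ))) (L : List (Finset ℕ))
    (X : Finset ℕ) : X ∈ (flatA f L).run o ↔ ∃ A ∈ L, X ∈ (f A).run o := by
  induction L with
  | nil => simp [flatA, run]
  | cons A L ih =>
    simp only [flatA, run_bind, run, List.mem_append, ih, List.mem_cons, exists_eq_or_imp]

theorem cost_flatA (o : Query → Bool) (f : Finset ℕ → Alg (List (Finset ℕ))) (L : List (Finset ℕ))
    (c : ℕ) (h : ∀ A ∈ L, (f A).cost o ≤ c) : (flatA f L).cost o ≤ L.length * c := by
  induction L with
  | nil => simp [flatA, cost]
  | cons A L ih =>
    have h1 := h A (by simp)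
    have h2 := ih fun B hB => h B (by simp [hB])
    simp only [flatA, cost_bind, cost, List.length_cons]
    rw [Nat.add_mul]
    omega

/-- remove repetitions and the sets that are contained in another one -/
def prune (C : List (Finset ℕ)) : List (Finset ℕ) :=
  C.dedup.filter fun X => decide (∀ Z ∈ C, X ⊆ Z → Z = X)

theorem mem_prune {C : List (Finset ℕ)} {X : Finset ℕ} :
    X ∈ prune C ↔ X ∈ C ∧ ∀ Z ∈ C, X ⊆ Z → Z = X := by
  simp [prune]

theorem nodup_prune (C : List (Finset ℕ)) : (prune C).Nodup :=
  (List.nodup_dedup C).filter _

/-- the maximal feasible sets between `B` and `B ∪ ws`; the first argument is the fuel -/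
def maxFeas : ℕ → Finset ℕ → List ℕ → Alg (List (Finset ℕ))
  | 0, B, _ => out [B]
  | _ + 1, B, [] => out [B]
  | n + 1, B, w :: ws => (maxFeas n B ws).bind fun L =>
      (flatA (fun A => ask (Query.feas (insert w A)) fun b =>
        bif b then out [insert w A] else
          ask (Query.feas (insert w B)) fun c =>
            bif c then
              (maxFeas n (insert w B) (ws.filter fun k => decide (k ∈ A))).bind fun X => out (A :: X)
            else out [A]) L).bind fun C => out (prune C)

/-- the joins of the sets of `acc` and the sets of the list, as far as they are bounded -/
def joins : List (Finset ℕ) → List (Finset ℕ) → Alg (List (Finset ℕ))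
  | acc, [] => out acc
  | acc, V :: Vs =>
      (flatA (fun T => ask (Query.bdd (T ∩ V)) fun b => out (bif b then [T ∩ V] else [])) acc).bind
        fun C => joins (V :: (acc ++ C)).dedup Vs

end Pool.Agent.V7H11.LF
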