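import Pool.Agent.V7H11.LF.Alg

/-!
# The maximal feasible sets: correctness and number of questions
-/

set_option autoImplicit false

namespace Pool.Agent.V7H11.LF

open Finset Alg

section

variable (o : Query → Bool)

/-- the answer to the feasibility question is yes -/
def fe (J : Finset ℕ) : Prop := o (Query.feas J) = true

/-- `X` is maximal among the feasible sets between `B` and `W` -/
def IsMax (B W X : Finset ℕ) : Prop :=
  B ⊆ X ∧ X ⊆ W ∧ fe o X ∧ ∀ Z, X ⊆ Z → Z ⊆ W → fe o Z → Z = X

variable {o}

theorem exists_isMax {B W X : Finset ℕ} (h1 : B ⊆ X) (h2 : X ⊆ W) (h3 : fe o X) :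
    ∃ Z, X ⊆ Z ∧ IsMax o B W Z := by
  classical
  obtain ⟨Z, hZ, hmax⟩ := Finset.exists_max_image
    (W.powerset.filter fun Z => X ⊆ Z ∧ fe o Z) Finset.card
    ⟨X, by simp [h2, h3]⟩
  rw [mem_filter, mem_powerset] at hZ
  refine ⟨Z, hZ.2.1, h1.trans hZ.2.1, hZ.1, hZ.2.2, fun Y hY1 hY2 hY3 => ?_⟩
  have := hmax Y (by rw [mem_filter, mem_powerset]; exact ⟨hY2, hZ.2.1.trans hY1, hY3⟩)
  exact (Finset.eq_of_subset_of_card_le hY1 this).symm

/-- one step of `maxFeas`, correctness -/
theorem step_spec (hd : ∀ J J', fe o J → J' ⊆ J → fe o J') (B : Finset ℕ) (w : ℕ) (ws : List ℕ)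
    (L C : List (Finset ℕ)) (hL : ∀ X, X ∈ L ↔ IsMax o B (B ∪ ws.toFinset) X)
    (Nst : Finset ℕ → List (Finset ℕ))
    (hN : ∀ A ∈ L, fe o (insert w B) → ∀ X, X ∈ Nst A ↔
      IsMax o (insert w B) (insert w B ∪ (ws.filter fun k => decide (k ∈ A)).toFinset) X)
    (hC : ∀ X, X ∈ C ↔ ∃ A ∈ L, (fe o (insert w A) ∧ X = insert w A) ∨
      (¬ fe o (insert w A) ∧ (X = A ∨ (fe o (insert w B) ∧ X ∈ Nst A)))) (X : Finset ℕ) :
    X ∈ prune C ↔ IsMax o B (B ∪ (w :: ws).toFinset) X := by
  classical
  have hW : B ∪ (w :: ws).toFinset = insert w (B ∪ ws.toFinset) := by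
    ext k; simp
  rw [hW]
  set W := B ∪ ws.toFinset with hWdef
  have h1 : ∀ X ∈ C, B ⊆ X ∧ X ⊆ insert w W ∧ fe o X := by
    intro X hX
    obtain ⟨A, hA, hcase⟩ := (hC X).1 hX
    obtain ⟨hA1, hA2, hA3, hA4⟩ := (hL A).1 hA
    rcases hcase with ⟨hf, rfl⟩ | ⟨_, rfl | ⟨hf, hX'⟩⟩
    · exact ⟨hA1.trans (subset_insert _ _), insert_subset_insert _ hA2, hf⟩
    · exact ⟨hA1, hA2.trans (subset_insert _ _), hA3⟩
    · obtain ⟨h3, h4, h5, _⟩ := (hN A hA hf X).1 hX'
      refine ⟨(subset_insert _ _).trans h3, fun k hk => ?_, h5⟩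
      have := h4 hk
      simp only [mem_union, mem_insert, List.mem_toFinset, List.mem_filter, decide_eq_true_eq,
        hWdef] at this ⊢
      tauto
  have h2 : ∀ X, IsMax o B (insert w W) X → X ∈ C := by
    rintro X ⟨hX1, hX2, hX3, hX4⟩
    rw [hC]
    by_cases hw : w ∈ X
    · have h3 : B ⊆ X ∩ W := fun k hk => mem_inter.2 ⟨hX1 hk, mem_union_left _ hk⟩
      obtain ⟨A, hXA, hA⟩ := exists_isMax (o := o) h3 inter_subset_right
        (hd X _ hX3 inter_subset_left)
      have h4 : X ⊆ insert w A := by
        intro k hk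
        rcases mem_insert.1 (hX2 hk) with rfl | h5
        · exact mem_insert_self _ _
        · exact mem_insert_of_mem (hXA (mem_inter.2 ⟨hk, h5⟩))
      refine ⟨A, (hL A).2 hA, ?_⟩
      by_cases hf : fe o (insert w A)
      · exact Or.inl ⟨hf, (hX4 _ h4 (insert_subset_insert _ hA.2.1) hf).symm⟩
      · have h5 : insert w B ⊆ X := insert_subset hw hX1
        have h6 : fe o (insert w B) := hd X _ hX3 h5
        refine Or.inr ⟨hf, Or.inr ⟨h6, (hN A ((hL A).2 hA) h6 X).2 ⟨h5, ?_, hX3, ?_⟩⟩⟩
        · intro k hk
          rcases mem_insert.1 (h4 hk) with rfl | h7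
          · exact mem_union_left _ (mem_insert_self _ _)
          · have h8 := hA.2.1 h7
            simp only [hWdef, mem_union, mem_insert, List.mem_toFinset, List.mem_filter,
              decide_eq_true_eq] at h8 ⊢
            tauto
        · intro Z hZ1 hZ2 hZ3
          refine hX4 Z hZ1 (hZ2.trans ?_) hZ3
          intro k hk
          simp only [hWdef, mem_union, mem_insert, List.mem_toFinset, List.mem_filter,
            decide_eq_true_eq] at hk ⊢
          tauto
    · have h3 : X ⊆ W := by
        intro k hk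
        rcases mem_insert.1 (hX2 hk) with rfl | h5
        · exact absurd hk hw
        · exact h5
      have h4 : IsMax o B W X := ⟨hX1, h3, hX3, fun Z hZ1 hZ2 hZ3 =>
        hX4 Z hZ1 (hZ2.trans (subset_insert _ _)) hZ3⟩
      refine ⟨X, (hL X).2 h4, Or.inr ⟨fun hf => hw ?_, Or.inl rfl⟩⟩
      have := hX4 (insert w X) (subset_insert _ _) (insert_subset_insert _ h3) hf
      rw [← this]
      exact mem_insert_self _ _
  rw [mem_prune]
  constructor
  · rintro ⟨hX, hX'⟩
    obtain ⟨h3, h4, h5⟩ := h1 X hX
    refine ⟨h3, h4, h5, fun Z hZ1 hZ2 hZ3 => ?_⟩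
    obtain ⟨Z', hZ', hmax⟩ := exists_isMax (o := o) (h3.trans hZ1) hZ2 hZ3
    have h6 := hX' Z' (h2 Z' hmax) (hZ1.trans hZ')
    subst h6
    exact Finset.Subset.antisymm hZ' hZ1
  · intro hX
    refine ⟨h2 X hX, fun Z hZ hXZ => ?_⟩
    obtain ⟨h3, h4, h5⟩ := h1 Z hZ
    exact hX.2.2.2 Z hXZ h4 h5

theorem nodup_maxFeas (n : ℕ) (B : Finset ℕ) (ws : List ℕ) : ((maxFeas n B ws).run o).Nodup := by
  cases n with
  | zero => simp [maxFeas, run]
  | succ n =>
    cases ws with
    | nil => simp [maxFeas, run]
    | cons w ws =>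
      simp only [maxFeas, run_bind, run]
      exact nodup_prune _

theorem mem_maxFeas (hd : ∀ J J', fe o J → J' ⊆ J → fe o J') (n : ℕ) :
    ∀ (B : Finset ℕ) (ws : List ℕ), ws.length ≤ n → fe o B → ∀ X,
      X ∈ (maxFeas n B ws).run o ↔ IsMax o B (B ∪ ws.toFinset) X := by
  classical
  have base : ∀ (B X : Finset ℕ), fe o B → (X ∈ [B] ↔ IsMax o B (B ∪ ([] : List ℕ).toFinset) X) := by
    intro B X hB
    simp only [List.mem_singleton, List.toFinset_nil, union_empty]
    constructor
    · rintro rfl
      exact ⟨Subset.rfl, Subset.rfl, hB, fun Z h1 h2 _ => Subset.antisymm h2 h1⟩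
    · rintro ⟨h1, h2, _, _⟩
      exact Subset.antisymm h2 h1
  induction n with
  | zero =>
    intro B ws hl hB X
    have : ws = [] := List.length_eq_zero_iff.1 (by omega)
    subst this
    simp only [maxFeas, run]
    exact base B X hB
  | succ n ih =>
    intro B ws hl hB X
    cases ws with
    | nil =>
      simp only [maxFeas, run]
      exact base B X hB
    | cons w ws =>
      have hl' : ws.length ≤ n := by simpa using hl
      simp only [maxFeas, run_bind, run]
      refine step_spec hd B w ws ((maxFeas n B ws).run o) _ (ih B ws hl' hB)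
        (fun A => (maxFeas n (insert w B) (ws.filter fun k => decide (k ∈ A))).run o) ?_ ?_ X
      · intro A hA hf X
        exact ih (insert w B) _ ((List.length_filter_le _ _).trans hl') hf X
      · intro X
        rw [run_flatA]
        refine exists_congr fun A => and_congr_right fun hA => ?_
        simp only [run, fe]
        cases h1 : o (Query.feas (insert w A)) with
        | true => simp [run]
        | false =>
          cases h2 : o (Query.feas (insert w B)) with
          | true => simp [run, h2, run_bind]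
          | false => simp [run, h2]

open Classical in
/-- the maximal feasible sets -/
noncomputable def facets (o : Query → Bool) (m : ℕ) : Finset (Finset ℕ) :=
  (range m).powerset.filter fun X => IsMax o ∅ (range m) X

theorem mem_facets {m : ℕ} {X : Finset ℕ} : X ∈ facets o m ↔ IsMax o ∅ (range m) X := by
  classical
  unfold facets
  rw [mem_filter, mem_powerset]
  exact ⟨fun h => h.2, fun h => ⟨h.2.1, h⟩⟩

theorem length_le {m : ℕ} (hd : ∀ J J', fe o J → J' ⊆ J → fe o J')
    (hm : ∀ J, fe o J → J ⊆ range m) (B W : Finset ℕ)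
    (L : List (Finset ℕ)) (hL : L.Nodup) (h : ∀ X ∈ L, IsMax o B W X) :
    L.length ≤ (facets o m).card := by
  classical
  have key : ∀ X, IsMax o B W X → ∃ V, V ∈ facets o m ∧ V ∩ W = X := by
    rintro X ⟨h1, h2, h3, h4⟩
    obtain ⟨V, hV, hmax⟩ := exists_isMax (o := o) (empty_subset X) (hm X h3) h3
    refine ⟨V, mem_facets.2 hmax, h4 _ (fun k hk => mem_inter.2 ⟨hV hk, h2 hk⟩) inter_subset_right
      (hd V _ hmax.2.2.1 inter_subset_left)⟩
  choose! φ hφ1 hφ2 using key
  rw [← List.toFinset_card_of_nodup hL]
  refine Finset.card_le_card_of_injOn φ (fun X hX => hφ1 X (h X (by simpa using hX))) ?_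
  intro X hX Y hY hXY
  rw [← hφ2 X (h X (by simpa using hX)), ← hφ2 Y (h Y (by simpa using hY)), hXY]

/-- every infeasible subset of `W` contains an infeasible set with at most `ρ` members outside `B` -/
def Rank (o : Query → Bool) (B W : Finset ℕ) (ρ : ℕ) : Prop :=
  ∀ E ⊆ W, ¬ fe o E → ∃ E' ⊆ E, ¬ fe o E' ∧ (E' \ B).card ≤ ρ

theorem cost_maxFeas {m : ℕ} (hd : ∀ J J', fe o J → J' ⊆ J → fe o J')
    (hm : ∀ J, fe o J → J ⊆ range m) (n : ℕ) :
    ∀ (B : Finset ℕ) (ws : List ℕ) (ρ : ℕ), ws.length ≤ n → fe o B →
      Rank o B (B ∪ ws.toFinset) ρ →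
      (maxFeas n B ws).cost o + 2 ≤ (n * (facets o m).card + 2) ^ (ρ + 1) := by
  classical
  have base : ∀ a ρ : ℕ, 0 + 2 ≤ (a + 2) ^ (ρ + 1) := by
    intro a ρ
    calc 0 + 2 ≤ (a + 2) ^ 1 := by simp
      _ ≤ (a + 2) ^ (ρ + 1) := Nat.pow_le_pow_right (by omega) (by omega)
  induction n with
  | zero =>
    intro B ws ρ hl hB hR
    simp only [maxFeas, cost]
    exact base _ _
  | succ n ih =>
    intro B ws ρ hl hB hR
    cases ws with
    | nil =>
      simp only [maxFeas, cost]
      exact base _ _
    | cons w ws =>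
      have hl' : ws.length ≤ n := by simpa using hl
      have hW : B ∪ (w :: ws).toFinset = insert w (B ∪ ws.toFinset) := by
        ext k; simp
      rw [hW] at hR
      have hR1 : Rank o B (B ∪ ws.toFinset) ρ := fun E hE hE' =>
        hR E (hE.trans (subset_insert _ _)) hE'
      have h1 := ih B ws ρ hl' hB hR1
      have hspec := mem_maxFeas hd n B ws hl' hB
      have hlen : ((maxFeas n B ws).run o).length ≤ (facets o m).card :=
        length_le hd hm B _ _ (nodup_maxFeas n B ws) fun X hX => (hspec X).1 hX
      simp only [maxFeas, cost_bind, cost, Nat.add_zero]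
      set v := (facets o m).card with hv
      set L := (maxFeas n B ws).run o with hLdef
      -- the cost of one member of `L`
      have hA : ∀ A ∈ L, (ask (Query.feas (insert w A)) fun b =>
        bif b then out [insert w A] else
          ask (Query.feas (insert w B)) fun c =>
            bif c then
              (maxFeas n (insert w B) (ws.filter fun k => decide (k ∈ A))).bind
                fun X => out (A :: X)
            else out [A]).cost o ≤ (n * v + 2) ^ ρ := by
        intro A hA
        obtain ⟨hA1, hA2, hA3, hA4⟩ := (hspec A).1 hA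
        have hone : 1 ≤ (n * v + 2) ^ ρ := Nat.one_le_pow _ _ (by omega)
        by_cases hf : fe o (insert w A)
        · have : o (Query.feas (insert w A)) = true := hf
          simp only [cost, this, cond_true]
          omega
        · have hf0 : o (Query.feas (insert w A)) = false := by
            simpa [fe] using hf
          -- the rank is positive
          have hins : insert w A ⊆ insert w (B ∪ ws.toFinset) := insert_subset_insert _ hA2
          have hwin : ∀ E, E ⊆ insert w A → ¬ fe o E → w ∈ E := by
            intro E hE hE'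
            by_contra hw
            refine hE' (hd A E hA3 fun k hk => ?_)
            rcases mem_insert.1 (hE hk) with rfl | h
            · exact absurd hk hw
            · exact h
          have hwB : w ∉ B := fun hw => hf (by
            rw [insert_eq_of_mem (hA1 hw)]; exact hA3)
          obtain ⟨E', hE1, hE2, hE3⟩ := hR _ hins hf
          have hρ : 1 ≤ ρ := by
            refine le_trans ?_ hE3
            exact Finset.card_pos.2 ⟨w, mem_sdiff.2 ⟨hwin E' hE1 hE2, hwB⟩⟩
          obtain ⟨ρ', rfl⟩ : ∃ ρ', ρ = ρ' + 1 := ⟨ρ - 1, by omega⟩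
          have htwo : 2 ≤ (n * v + 2) ^ (ρ' + 1) := by
            have := base (n * v) ρ'
            omega
          by_cases hg : fe o (insert w B)
          · have hg0 : o (Query.feas (insert w B)) = true := hg
            have hR2 : Rank o (insert w B)
                (insert w B ∪ (ws.filter fun k => decide (k ∈ A)).toFinset) ρ' := by
              intro E hE hE'
              have hEA : E ⊆ insert w A := by
                intro k hk
                have := hE hk
                simp only [mem_union, mem_insert, List.mem_toFinset, List.mem_filter,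
                  decide_eq_true_eq] at this ⊢
                rcases this with (h | h) | h
                · exact Or.inl h
                · exact Or.inr (hA1 h)
                · exact Or.inr h.2
              obtain ⟨E₂, h2, h3, h4⟩ := hR E (hEA.trans hins) hE'
              refine ⟨E₂, h2, h3, ?_⟩
              have h5 : w ∈ E₂ \ B := mem_sdiff.2 ⟨hwin E₂ (h2.trans hEA) h3, hwB⟩
              have h6 : E₂ \ insert w B = (E₂ \ B).erase w := by
                ext k; simp only [mem_sdiff, mem_insert, mem_erase]; tauto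
              rw [h6, card_erase_of_mem h5]
              omega
            have h2 := ih (insert w B) (ws.filter fun k => decide (k ∈ A)) ρ'
              ((List.length_filter_le _ _).trans hl') hg hR2
            simp only [cost, hf0, cond_false, hg0, cond_true, cost_bind]
            omega
          · have hg0 : o (Query.feas (insert w B)) = false := by simpa [fe] using hg
            simp only [cost, hf0, cond_false, hg0]
            omega
      have h2 := cost_flatA o _ L _ hA
      have h3 : L.length * (n * v + 2) ^ ρ ≤ v * (n * v + 2) ^ ρ := Nat.mul_le_mul_right _ hlen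
      have h4 : (n * v + 2) ^ (ρ + 1) + v * (n * v + 2) ^ ρ ≤ ((n + 1) * v + 2) ^ (ρ + 1) := by
        calc (n * v + 2) ^ (ρ + 1) + v * (n * v + 2) ^ ρ
            = ((n + 1) * v + 2) * (n * v + 2) ^ ρ := by ring
          _ ≤ ((n + 1) * v + 2) * ((n + 1) * v + 2) ^ ρ :=
              Nat.mul_le_mul_left _ (Nat.pow_le_pow_left (by nlinarith) _)
          _ = ((n + 1) * v + 2) ^ (ρ + 1) := by ring
      omega

end

end Pool.Agent.V7H11.LF
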