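import Pool.Agent.V7H11.LF.Comb

/-!
# The bounded intersections of maximal feasible sets
-/

set_option autoImplicit false

namespace Pool.Agent.V7H11.LF

open Finset Alg

/-- the common members of the sets in the collection -/
def cap (m : ℕ) (S : Finset (Finset ℕ)) : Finset ℕ := (range m).filter fun k => ∀ V ∈ S, k ∈ V

theorem cap_insert (m : ℕ) (V : Finset ℕ) (S : Finset (Finset ℕ)) :
    cap m (insert V S) = cap m S ∩ V := by
  ext k; simp only [cap, mem_filter, mem_insert, mem_inter, forall_eq_or_imp]; tauto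

theorem cap_singleton {m : ℕ} {V : Finset ℕ} (h : V ⊆ range m) : cap m {V} = V := by
  ext k
  simp only [cap, mem_filter, mem_singleton, forall_eq]
  exact ⟨fun h => h.2, fun hk => ⟨h hk, hk⟩⟩

/-- `T` is the intersection of a nonempty collection of members of `pre`, and bounded -/
def Gd (o : Query → Bool) (m : ℕ) (pre : Finset (Finset ℕ)) (T : Finset ℕ) : Prop :=
  ∃ S ⊆ pre, S.Nonempty ∧ T = cap m S ∧ o (Query.bdd T) = true

theorem Gd.mono {o : Query → Bool} {m : ℕ} {p q : Finset (Finset ℕ)} {T : Finset ℕ} (h : p ⊆ q)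
    (hT : Gd o m p T) : Gd o m q T := by
  obtain ⟨S, h1, h2, h3, h4⟩ := hT
  exact ⟨S, h1.trans h, h2, h3, h4⟩

variable {o : Query → Bool} {m : ℕ}

theorem gd_insert (hb : ∀ T T', T ⊆ T' → o (Query.bdd T) = true → o (Query.bdd T') = true)
    {V : Finset ℕ} (hV : V ⊆ range m) (hVb : o (Query.bdd V) = true) (pre : Finset (Finset ℕ))
    (T : Finset ℕ) : Gd o m (insert V pre) T ↔ T = V ∨ Gd o m pre T ∨
      ∃ T', Gd o m pre T' ∧ o (Query.bdd (T' ∩ V)) = true ∧ T = T' ∩ V := by
  classical
  constructor
  · rintro ⟨S, h1, h2, h3, h4⟩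
    by_cases hVS : V ∈ S
    · have h5 : insert V (S.erase V) = S := insert_erase hVS
      rcases (S.erase V).eq_empty_or_nonempty with he | hne
      · left
        rw [h3, ← h5, he, LawfulSingleton.insert_empty_eq, cap_singleton hV]
      · right; right
        have h6 : T = cap m (S.erase V) ∩ V := by rw [h3, ← cap_insert, h5]
        refine ⟨cap m (S.erase V), ⟨S.erase V, ?_, hne, rfl, ?_⟩, ?_, h6⟩
        · intro U hU
          rcases mem_insert.1 (h1 (mem_of_mem_erase hU)) with h | h
          · exact absurd h (ne_of_mem_erase hU)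
          · exact h
        · exact hb T _ (by rw [h6]; exact inter_subset_left) h4
        · rw [← h6]; exact h4
    · right; left
      refine ⟨S, fun U hU => ?_, h2, h3, h4⟩
      rcases mem_insert.1 (h1 hU) with h | h
      · exact absurd (h ▸ hU) hVS
      · exact h
  · rintro (rfl | h | ⟨T', ⟨S, h1, h2, h3, h4⟩, h5, rfl⟩)
    · exact ⟨{T}, by simp, by simp, (cap_singleton hV).symm, hVb⟩
    · exact h.mono (subset_insert _ _)
    · refine ⟨insert V S, insert_subset_insert _ h1, ⟨V, mem_insert_self _ _⟩, ?_, h5⟩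
      rw [cap_insert, h3]

theorem joins_spec (hb : ∀ T T', T ⊆ T' → o (Query.bdd T) = true → o (Query.bdd T') = true)
    (N : ℕ) (Vs : List (Finset ℕ)) : ∀ (acc : List (Finset ℕ)) (pre : Finset (Finset ℕ)),
      (∀ V ∈ Vs, V ⊆ range m ∧ o (Query.bdd V) = true) → acc.Nodup →
      (∀ T, T ∈ acc ↔ Gd o m pre T) →
      (∀ l : List (Finset ℕ), l.Nodup → (∀ T ∈ l, Gd o m (pre ∪ Vs.toFinset) T) → l.length ≤ N) →
      ((joins acc Vs).run o).Nodup ∧
        (∀ T, T ∈ (joins acc Vs).run o ↔ Gd o m (pre ∪ Vs.toFinset) T) ∧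
        (joins acc Vs).cost o ≤ Vs.length * N := by
  classical
  induction Vs with
  | nil =>
    intro acc pre _ h1 h2 _
    simp only [joins, run, cost, List.toFinset_nil, union_empty, List.length_nil, Nat.zero_mul,
      le_refl, and_true]
    exact ⟨h1, h2⟩
  | cons V Vs ih =>
    intro acc pre hV h1 h2 hN
    obtain ⟨hV1, hV2⟩ := hV V (by simp)
    set f : Finset ℕ → Alg (List (Finset ℕ)) := fun T =>
      ask (Query.bdd (T ∩ V)) fun b => out (bif b then [T ∩ V] else []) with hf
    have e : pre ∪ (V :: Vs).toFinset = insert V pre ∪ Vs.toFinset := by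
      ext U; simp only [List.toFinset_cons, mem_union, mem_insert]; tauto
    have hacc : ∀ T, T ∈ (V :: (acc ++ (flatA f acc).run o)).dedup ↔ Gd o m (insert V pre) T := by
      intro T
      rw [List.mem_dedup, List.mem_cons, List.mem_append, run_flatA, gd_insert hb hV1 hV2, ← h2]
      refine or_congr_right (or_congr_right (exists_congr fun T' => ?_))
      rw [h2]
      refine and_congr_right fun _ => ?_
      simp only [hf, run]
      cases o (Query.bdd (T' ∩ V)) with
      | true => simp
      | false => simp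
    have h3 := ih _ (insert V pre) (fun U hU => hV U (by simp [hU])) (List.nodup_dedup _) hacc
      (by rw [← e]; exact hN)
    have hlen : acc.length ≤ N := hN acc h1 fun T hT =>
      ((h2 T).1 hT).mono subset_union_left
    have hc : (flatA f acc).cost o ≤ acc.length * 1 := by
      refine cost_flatA o f acc 1 fun T _ => ?_
      simp [hf, cost]
    simp only [joins, run_bind, cost_bind]
    rw [e]
    refine ⟨h3.1, h3.2.1, ?_⟩
    have h4 := h3.2.2
    rw [List.length_cons, Nat.add_mul]
    simp only [← hf]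
    omega

end Pool.Agent.V7H11.LF
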