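import Pool.Agent.V7H11.LF.Geo
import Pool.Agent.V7H11.LF.Joins
import Pool.Agent.W986.BF.Defs

/-!
# Bounded faces and their sets of tight inequalities
-/

set_option autoImplicit false

namespace Pool.Agent.V7H11.LF

open Finset Matrix Pool.Agent.W986.BF

namespace Sy

variable {d : ℕ} {Y : Sy d}

theorem comb_mem {x y : Fin d → ℝ} {a b : ℝ} (hx : x ∈ Y.P) (hy : y ∈ Y.P) (ha : 0 < a)
    (hb : 0 < b) (hab : a + b = 1) :
    a • x + b • y ∈ Y.P ∧ Y.T (a • x + b • y) = Y.T x ∩ Y.T y := by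
  have hv : ∀ k, Y.g k ⬝ᵥ (a • x + b • y) = a * (Y.g k ⬝ᵥ x) + b * (Y.g k ⬝ᵥ y) := by
    intro k; rw [dotProduct_add, dotProduct_smul, dotProduct_smul, smul_eq_mul, smul_eq_mul]
  have hr : ∀ k, Y.r k = a * Y.r k + b * Y.r k := by
    intro k; rw [← add_mul, hab, one_mul]
  constructor
  · intro k hk
    rw [hv, hr k]
    exact add_le_add (mul_le_mul_of_nonneg_left (hx k hk) ha.le)
      (mul_le_mul_of_nonneg_left (hy k hk) hb.le)
  · ext k
    rw [Finset.mem_inter, mem_T, mem_T, mem_T, hv]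
    constructor
    · rintro ⟨h1, h2⟩
      have h3 := mul_le_mul_of_nonneg_left (hx k h1) ha.le
      have h4 := mul_le_mul_of_nonneg_left (hy k h1) hb.le
      have h5 := hr k
      exact ⟨⟨h1, mul_left_cancel₀ ha.ne' (by linarith)⟩, h1,
        mul_left_cancel₀ hb.ne' (by linarith)⟩
    · rintro ⟨⟨h1, h2⟩, _, h3⟩
      exact ⟨h1, by rw [h2, h3, ← hr k]⟩

/-- a set of common tight inequalities is the set of the tight inequalities of a point -/
theorem exists_inter {x y : Fin d → ℝ} (hx : x ∈ Y.P) (hy : y ∈ Y.P) :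
    ∃ w ∈ Y.P, Y.T w = Y.T x ∩ Y.T y := by
  obtain ⟨h1, h2⟩ := comb_mem (Y := Y) hx hy (a := 1 / 2) (b := 1 / 2) (by norm_num)
    (by norm_num) (by norm_num)
  exact ⟨_, h1, h2⟩

theorem exposed_F {J : Finset ℕ} (hne : (Y.F J).Nonempty) : IsExposed ℝ Y.P (Y.F J) := by
  intro _
  obtain ⟨x, hx, hJ⟩ := hne
  let L : (Fin d → ℝ) →L[ℝ] ℝ :=
    LinearMap.toContinuousLinearMap
      { toFun := fun v => ∑ k ∈ J, Y.g k ⬝ᵥ v
        map_add' := fun v w => by
          simp only [dotProduct_add, Finset.sum_add_distrib]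
        map_smul' := fun c v => by
          simp only [dotProduct_smul, smul_eq_mul, Finset.mul_sum, RingHom.id_apply] }
  have hL : ∀ v, L v = ∑ k ∈ J, Y.g k ⬝ᵥ v := fun v => rfl
  refine ⟨L, ?_⟩
  ext v
  constructor
  · rintro ⟨hv, hvJ⟩
    refine ⟨hv, fun y hy => ?_⟩
    rw [hL, hL]
    refine Finset.sum_le_sum fun k hk => ?_
    rw [(mem_T.1 (hvJ hk)).2]
    exact hy k (mem_T.1 (hvJ hk)).1
  · rintro ⟨hv, hmax⟩
    refine ⟨hv, fun k hk => mem_T.2 ⟨(mem_T.1 (hJ hk)).1, ?_⟩⟩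
    have h1 := hmax x hx
    rw [hL, hL] at h1
    have h2 : ∀ j ∈ J, Y.g j ⬝ᵥ v ≤ Y.g j ⬝ᵥ x := by
      intro j hj
      rw [(mem_T.1 (hJ hj)).2]
      exact hv j (mem_T.1 (hJ hj)).1
    have h3 : ∑ j ∈ J, Y.g j ⬝ᵥ v = ∑ j ∈ J, Y.g j ⬝ᵥ x :=
      le_antisymm (Finset.sum_le_sum h2) h1
    have h4 := (Finset.sum_eq_sum_iff_of_le h2).1 h3 k hk
    rw [h4]
    exact (mem_T.1 (hJ hk)).2

/-- every nonempty exposed face is `F (T x)` for one of its points -/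
theorem exposed_eq {A : Set (Fin d → ℝ)} (hne : A.Nonempty) (hA : IsExposed ℝ Y.P A) :
    ∃ x ∈ A, x ∈ Y.P ∧ A = Y.F (Y.T x) := by
  classical
  obtain ⟨L, hL⟩ := hA hne
  have hsub : ∀ x ∈ A, x ∈ Y.P ∧ ∀ y ∈ Y.P, L y ≤ L x := by
    intro x hx; rw [hL] at hx; exact hx
  -- a point with the fewest tight inequalities
  obtain ⟨x, hx, hmin⟩ : ∃ x ∈ A, ∀ y ∈ A, (Y.T x).card ≤ (Y.T y).card := by
    have hex : ∃ c, ∃ x ∈ A, (Y.T x).card = c := by
      obtain ⟨x, hx⟩ := hne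
      exact ⟨_, x, hx, rfl⟩
    obtain ⟨x, hx, hc⟩ := Nat.find_spec hex
    exact ⟨x, hx, fun y hy => by rw [hc]; exact Nat.find_min' hex ⟨y, hy, rfl⟩⟩
  refine ⟨x, hx, (hsub x hx).1, Set.Subset.antisymm (fun y hy => ?_) fun y hy => ?_⟩
  · refine ⟨(hsub y hy).1, ?_⟩
    obtain ⟨h1, h2⟩ := comb_mem (Y := Y) (hsub x hx).1 (hsub y hy).1 (a := 1 / 2) (b := 1 / 2)
      (by norm_num) (by norm_num) (by norm_num)
    set w := (1 / 2 : ℝ) • x + (1 / 2 : ℝ) • y with hw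
    have h3 : w ∈ A := by
      rw [hL]
      refine ⟨h1, fun v hv => ?_⟩
      have e1 : L w = 1 / 2 * L x + 1 / 2 * L y := by
        rw [hw, map_add, map_smul, map_smul, smul_eq_mul, smul_eq_mul]
      have e2 := (hsub x hx).2 v hv
      have e3 := (hsub y hy).2 v hv
      rw [e1]; linarith
    have h4 := hmin w h3
    rw [h2] at h4
    have h5 : Y.T x ∩ Y.T y = Y.T x := Finset.eq_of_subset_of_card_le inter_subset_left h4
    rw [← h5]
    exact inter_subset_right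
  · obtain ⟨hyP, hyT⟩ := hy
    obtain ⟨η, hη, hmove, _⟩ := small_move (Y := Y) (x := x) (e := x - y) (hsub x hx).1 (by
      intro k hk
      rw [dotProduct_sub, (mem_T.1 hk).2, (mem_T.1 (hyT hk)).2, sub_self])
    have h1 := (hsub x hx).2 _ hmove
    rw [map_add, map_smul, map_sub, smul_eq_mul] at h1
    have h2 : L x ≤ L y := by
      by_contra hcon
      push Not at hcon
      nlinarith
    rw [hL]
    exact ⟨hyP, fun v hv => ((hsub x hx).2 v hv).trans h2⟩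

variable (Y) in
/-- the sets of tight inequalities of the bounded faces -/
def TF : Set (Finset ℕ) := {T | ∃ x ∈ Y.P, Y.T x = T ∧ Bornology.IsBounded (Y.F T)}

theorem TF_finite : (TF Y).Finite := by
  refine (Finset.finite_toSet (range Y.m).powerset).subset ?_
  rintro T ⟨x, _, rfl, _⟩
  exact Finset.mem_coe.2 (Finset.mem_powerset.2 (T_sub x))

theorem F_inj {T T' : Finset ℕ} (h : T ∈ TF Y) (h' : T' ∈ TF Y) (he : Y.F T = Y.F T') : T = T' := by
  obtain ⟨x, hx, rfl, _⟩ := h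
  obtain ⟨x', hx', rfl, _⟩ := h'
  refine Finset.Subset.antisymm ?_ ?_
  · have : x' ∈ Y.F (Y.T x) := by rw [he]; exact ⟨hx', Finset.Subset.rfl⟩
    exact this.2
  · have : x ∈ Y.F (Y.T x') := by rw [← he]; exact ⟨hx, Finset.Subset.rfl⟩
    exact this.2

theorem F_sub_iff {T T' : Finset ℕ} (h : T ∈ TF Y) : Y.F T ⊆ Y.F T' ↔ T' ⊆ T := by
  obtain ⟨x, hx, rfl, _⟩ := h
  exact ⟨fun hs => (hs ⟨hx, Finset.Subset.rfl⟩).2, F_anti⟩

theorem F_ssub_iff {T T' : Finset ℕ} (h : T ∈ TF Y) (h' : T' ∈ TF Y) :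
    Y.F T ⊂ Y.F T' ↔ T' ⊂ T := by
  rw [ssubset_iff_subset_not_subset, ssubset_iff_subset_not_subset, F_sub_iff h, F_sub_iff h']

/-- the number of bounded faces is at least `2 ^ |J| - 1` -/
theorem helly (hNL : Y.NL) {J : Finset ℕ} (hJm : J ⊆ range Y.m) (hJ : ¬ (Y.F J).Nonempty)
    (hJ' : ∀ i ∈ J, (Y.F (J.erase i)).Nonempty) : 2 ^ J.card ≤ (TF Y).ncard + 1 := by
  classical
  have h := fun (I : Finset ℕ) (hI : I ⊆ J ∧ I.Nonempty) =>
    exists_bounded hNL hJm hJ hJ' hI.1 hI.2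
  choose! x hx1 hx2 hx3 using h
  have h1 : (J.powerset.erase ∅).card ≤ (TF Y).ncard := by
    rw [← Set.ncard_coe_finset]
    refine Set.ncard_le_ncard_of_injOn (fun I => Y.T (x I)) ?_ ?_ TF_finite
    · intro I hI
      rw [Finset.mem_coe, Finset.mem_erase, Finset.mem_powerset] at hI
      have hI' : I ⊆ J ∧ I.Nonempty := ⟨hI.2, Finset.nonempty_iff_ne_empty.2 hI.1⟩
      exact ⟨x I, hx1 I hI', rfl, hx2 I hI'⟩
    · intro I hI I' hI' he
      rw [Finset.mem_coe, Finset.mem_erase, Finset.mem_powerset] at hI hI'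
      have h2 := hx3 I ⟨hI.2, Finset.nonempty_iff_ne_empty.2 hI.1⟩
      have h3 := hx3 I' ⟨hI'.2, Finset.nonempty_iff_ne_empty.2 hI'.1⟩
      have he' : Y.T (x I) = Y.T (x I') := he
      rw [he', h3] at h2
      rw [← Finset.sdiff_sdiff_eq_self hI.2, ← h2, Finset.sdiff_sdiff_eq_self hI'.2]
  rw [Finset.card_erase_of_mem (Finset.mem_powerset.2 (Finset.empty_subset _)),
    Finset.card_powerset] at h1
  omega

/-- a maximal set of inequalities that can be tight together belongs to a vertex -/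
theorem bounded_of_max (hNL : Y.NL) {V : Finset ℕ} (hV : (Y.F V).Nonempty)
    (hmax : ∀ Z, V ⊆ Z → (Y.F Z).Nonempty → Z = V) : V ∈ TF Y := by
  classical
  obtain ⟨x, hx, hxV⟩ := hV
  have hT : ∀ y ∈ Y.F V, Y.T y = V := fun y hy => hmax _ hy.2 ⟨y, hy.1, Finset.Subset.rfl⟩
  have hxT : Y.T x = V := hT x ⟨hx, hxV⟩
  have huniq : ∀ y ∈ Y.F V, y = x := by
    intro y hy
    by_contra hne
    obtain ⟨k, hk, hke⟩ : ∃ k < Y.m, Y.g k ⬝ᵥ (y - x) ≠ 0 := by
      by_contra hcon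
      push Not at hcon
      exact hne (sub_eq_zero.1 (hNL _ hcon))
    -- maximize `g k` on `F V`
    have hPh : Ph (Y.F V) := by
      have e : Y.F V = Y.P ∩ {x | ∀ j ∈ V, x ∈ {x | Y.g j ⬝ᵥ x = Y.r j}} := by
        ext v
        constructor
        · rintro ⟨h1, h2⟩
          exact ⟨h1, fun j hj => (mem_T.1 (h2 hj)).2⟩
        · rintro ⟨h1, h2⟩
          exact ⟨h1, fun j hj => mem_T.2 ⟨(mem_T.1 (hxV hj)).1, h2 j hj⟩⟩
      rw [e]
      exact Ph.P.inter (Ph.ball _ fun j _ => Ph.eq _ _)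
    obtain ⟨z, hz, hzmax⟩ := hPh.attain ⟨x, hx, hxV⟩ (Y.g k) (Y.r k) fun v hv => hv.1 k hk
    obtain ⟨η, hη, h1, h2⟩ := small_move (Y := Y) (x := z) (e := y - x) hz.1 (by
      intro j hj
      rw [hT z hz] at hj
      have e1 := (mem_T.1 (hy.2 hj)).2
      have e2 := (mem_T.1 (hxV hj)).2
      rw [dotProduct_sub, e1, e2, sub_self])
    have hV1 : ∀ j ∈ V, Y.g j ⬝ᵥ (y - x) = 0 := by
      intro j hj
      rw [dotProduct_sub, (mem_T.1 (hy.2 hj)).2, (mem_T.1 (hxV hj)).2, sub_self]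
    have h3 : z + η • (y - x) ∈ Y.F V := ⟨h1, fun j hj => mem_T.2 ⟨(mem_T.1 (hxV hj)).1, by
      rw [dotProduct_add, dotProduct_smul, hV1 j hj, smul_zero, add_zero]
      exact (mem_T.1 (hz.2 hj)).2⟩⟩
    have h4 : z - η • (y - x) ∈ Y.F V := ⟨h2, fun j hj => mem_T.2 ⟨(mem_T.1 (hxV hj)).1, by
      rw [dotProduct_sub, dotProduct_smul, hV1 j hj, smul_zero, sub_zero]
      exact (mem_T.1 (hz.2 hj)).2⟩⟩
    have h5 := hzmax _ h3
    have h6 := hzmax _ h4
    rw [dotProduct_add, dotProduct_smul, smul_eq_mul] at h5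
    rw [dotProduct_sub, dotProduct_smul, smul_eq_mul] at h6
    have h7 : η * (Y.g k ⬝ᵥ (y - x)) = 0 := by linarith
    rcases mul_eq_zero.1 h7 with h | h
    · exact hη.ne' h
    · exact hke h
  refine ⟨x, hx, hxT, ?_⟩
  have : Y.F V ⊆ {x} := fun y hy => huniq y hy
  exact Bornology.isBounded_singleton.subset this

/-- the tight inequalities of a bounded face are the common tight inequalities of its vertices -/
theorem exists_max_avoid {x : Fin d → ℝ} (hx : x ∈ Y.P) (hb : Bornology.IsBounded (Y.F (Y.T x)))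
    {k : ℕ} (hk : k < Y.m) (hkT : k ∉ Y.T x) :
    ∃ V, Y.T x ⊆ V ∧ k ∉ V ∧ (Y.F V).Nonempty ∧ ∀ Z, V ⊆ Z → (Y.F Z).Nonempty → Z = V := by
  classical
  have hPh : Ph (Y.F (Y.T x)) := by
    have e : Y.F (Y.T x) = Y.P ∩ {v | ∀ j ∈ Y.T x, v ∈ {v | Y.g j ⬝ᵥ v = Y.r j}} := by
      ext v
      constructor
      · rintro ⟨h1, h2⟩
        exact ⟨h1, fun j hj => (mem_T.1 (h2 hj)).2⟩
      · rintro ⟨h1, h2⟩
        exact ⟨h1, fun j hj => mem_T.2 ⟨(mem_T.1 hj).1, h2 j hj⟩⟩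
    rw [e]
    exact Ph.P.inter (Ph.ball _ fun j _ => Ph.eq _ _)
  -- minimize `g k` on the face
  obtain ⟨C, hC⟩ : ∃ C : ℝ, ∀ v ∈ Y.F (Y.T x), (-Y.g k) ⬝ᵥ v ≤ C := by
    have hcont : Continuous fun v : Fin d → ℝ => (-Y.g k) ⬝ᵥ v := by
      unfold dotProduct; fun_prop
    have hcomp : IsCompact (closure (Y.F (Y.T x))) := hb.isCompact_closure
    obtain ⟨C, hC⟩ := (hcomp.image hcont).bddAbove
    exact ⟨C, fun v hv => hC ⟨v, subset_closure hv, rfl⟩⟩
  obtain ⟨z, hz, hzmax⟩ := hPh.attain ⟨x, hx, Finset.Subset.rfl⟩ (-Y.g k) C hC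
  -- among the minimizers one with the most tight inequalities
  set M : Set (Fin d → ℝ) := {v | v ∈ Y.F (Y.T x) ∧ Y.g k ⬝ᵥ v = Y.g k ⬝ᵥ z} with hM
  obtain ⟨w, hw, hwmax⟩ : ∃ w ∈ M, ∀ v ∈ M, (Y.T v).card ≤ (Y.T w).card := by
    have hfin : (Set.range fun v : M => (Y.T (v : Fin d → ℝ)).card).Finite := by
      refine (Set.finite_le_nat Y.m).subset ?_
      rintro _ ⟨v, rfl⟩
      have := Finset.card_le_card (T_sub (Y := Y) (v : Fin d → ℝ))
      rw [Finset.card_range] at this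
      exact this
    obtain ⟨c, ⟨v, rfl⟩, hc⟩ := Set.exists_max_image _ id hfin
      ⟨_, (⟨z, hz, rfl⟩ : M), rfl⟩
    exact ⟨v, v.2, fun u hu => hc _ ⟨⟨u, hu⟩, rfl⟩⟩
  refine ⟨Y.T w, hw.1.2, ?_, ⟨w, hw.1.1, Finset.Subset.rfl⟩, fun Z hZ hZne => ?_⟩
  · intro hkw
    have h1 := (mem_T.1 hkw).2
    have h2 := hzmax x ⟨hx, Finset.Subset.rfl⟩
    rw [neg_dotProduct, neg_dotProduct] at h2
    have h3 : Y.g k ⬝ᵥ w = Y.g k ⬝ᵥ z := hw.2
    have h4 := hx k hk
    exact hkT (mem_T.2 ⟨hk, by linarith⟩)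
  · obtain ⟨y, hy, hyZ⟩ := hZne
    have hyw : Y.T w ⊆ Y.T y := hZ.trans hyZ
    obtain ⟨η, hη, h1, h2⟩ := small_move (Y := Y) (x := w) (e := y - w) hw.1.1 (by
      intro j hj
      rw [dotProduct_sub, (mem_T.1 hj).2, (mem_T.1 (hyw hj)).2, sub_self])
    have hT1 : ∀ j ∈ Y.T x, Y.g j ⬝ᵥ (y - w) = 0 := by
      intro j hj
      have hj' := hw.1.2 hj
      rw [dotProduct_sub, (mem_T.1 hj').2, (mem_T.1 (hyw hj')).2, sub_self]
    have h3 := hzmax _ (show w + η • (y - w) ∈ Y.F (Y.T x) from ⟨h1, fun j hj => mem_T.2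
      ⟨(mem_T.1 hj).1, by
        rw [dotProduct_add, dotProduct_smul, hT1 j hj, smul_zero, add_zero]
        exact (mem_T.1 (hw.1.2 hj)).2⟩⟩)
    have h4 := hzmax _ (show w - η • (y - w) ∈ Y.F (Y.T x) from ⟨h2, fun j hj => mem_T.2
      ⟨(mem_T.1 hj).1, by
        rw [dotProduct_sub, dotProduct_smul, hT1 j hj, smul_zero, sub_zero]
        exact (mem_T.1 (hw.1.2 hj)).2⟩⟩)
    rw [neg_dotProduct, neg_dotProduct, dotProduct_add, dotProduct_smul, smul_eq_mul] at h3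
    rw [neg_dotProduct, neg_dotProduct, dotProduct_sub, dotProduct_smul, smul_eq_mul] at h4
    have h5 : Y.g k ⬝ᵥ w = Y.g k ⬝ᵥ z := hw.2
    have h6 : η * (Y.g k ⬝ᵥ (y - w)) = 0 := by linarith
    have h7 : Y.g k ⬝ᵥ (y - w) = 0 := by
      rcases mul_eq_zero.1 h6 with h | h
      · exact absurd h hη.ne'
      · exact h
    have hyM : y ∈ M := by
      refine ⟨⟨hy, hw.1.2.trans hyw⟩, ?_⟩
      rw [dotProduct_sub] at h7
      linarith
    have h8 := hwmax y hyM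
    have h9 : Y.T w = Y.T y := Finset.eq_of_subset_of_card_le hyw h8
    exact Finset.Subset.antisymm (h9 ▸ hyZ) hZ

end Sy

/-! ### The start's definitions -/

/-- the system of inequalities of a `LinSys` -/
noncomputable def sy (S : LinSys) : Sy S.1 where
  g := fun j t => (((S.2.getD j ([], 0)).1.getD t 0 : ℚ) : ℝ)
  r := fun j => (((S.2.getD j ([], 0)).2 : ℚ) : ℝ)
  m := S.2.length

theorem lhs_eq (S : LinSys) (j : ℕ) (x : Fin S.1 → ℝ) :
    lhs (S.2.getD j ([], 0)) x = (sy S).g j ⬝ᵥ x := rfl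

theorem polyhedron_eq (S : LinSys) : polyhedron S = (sy S).P := by
  ext x
  constructor
  · intro h k hk
    have hk' : k < S.2.length := hk
    have := h (S.2.getD k ([], 0)) (by
      rw [List.getD_eq_getElem _ _ hk']; exact List.getElem_mem hk')
    exact this
  · intro h r hr
    obtain ⟨j, hj, rfl⟩ := List.getElem_of_mem hr
    have := h j hj
    rw [← lhs_eq, List.getD_eq_getElem _ _ hj] at this
    refine this.trans (le_of_eq ?_)
    change (((S.2.getD j ([], 0)).2 : ℚ) : ℝ) = _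
    rw [List.getD_eq_getElem _ _ hj]

theorem mem_boundedFaces (S : LinSys) (A : Set (Fin S.1 → ℝ)) :
    A ∈ boundedFaces S ↔ ∃ T ∈ Sy.TF (sy S), A = (sy S).F T := by
  unfold boundedFaces
  rw [polyhedron_eq]
  constructor
  · rintro ⟨h1, h2, h3⟩
    obtain ⟨x, _, hx, rfl⟩ := Sy.exposed_eq h1 h2
    exact ⟨_, ⟨x, hx, rfl, h3⟩, rfl⟩
  · rintro ⟨T, ⟨x, hx, rfl, h3⟩, rfl⟩
    have hne : ((sy S).F ((sy S).T x)).Nonempty := ⟨x, hx, Finset.Subset.rfl⟩
    exact ⟨hne, Sy.exposed_F hne, h3⟩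

/-- the increasing list of the members of a set of numbers below `m` -/
def lst (m : ℕ) (T : Finset ℕ) : List ℕ := (List.range m).filter fun j => decide (j ∈ T)

theorem tight_F (S : LinSys) {T : Finset ℕ} (hT : T ∈ Sy.TF (sy S)) :
    tight S ((sy S).F T) = lst S.2.length T := by
  classical
  obtain ⟨x, hx, rfl, _⟩ := hT
  unfold tight lst
  refine List.filter_congr fun j hj => ?_
  rw [List.mem_range] at hj
  rw [decide_eq_decide]
  constructor
  · intro h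
    exact Sy.mem_T.2 ⟨hj, h x ⟨hx, Finset.Subset.rfl⟩⟩
  · intro h y hy
    exact (Sy.mem_T.1 (hy.2 h)).2

theorem lst_inj {m : ℕ} {T T' : Finset ℕ} (h : T ⊆ range m) (h' : T' ⊆ range m)
    (he : lst m T = lst m T') : T = T' := by
  ext k
  have h1 : k ∈ lst m T ↔ k ∈ lst m T' := by rw [he]
  simp only [lst, List.mem_filter, List.mem_range, decide_eq_true_eq] at h1
  constructor
  · intro hk
    exact (h1.1 ⟨mem_range.1 (h hk), hk⟩).2
  · intro hk
    exact (h1.2 ⟨mem_range.1 (h' hk), hk⟩).2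

theorem ncard_boundedFaces (S : LinSys) : (boundedFaces S).ncard = (Sy.TF (sy S)).ncard := by
  have e : boundedFaces S = (sy S).F '' Sy.TF (sy S) := by
    ext A
    rw [mem_boundedFaces, Set.mem_image]
    exact ⟨fun ⟨T, h1, h2⟩ => ⟨T, h1, h2.symm⟩, fun ⟨T, h1, h2⟩ => ⟨T, h1, h2.symm⟩⟩
  rw [e, Set.InjOn.ncard_image fun T hT T' hT' he => Sy.F_inj hT hT' he]

theorem nl_of_extreme (S : LinSys) (h : ((polyhedron S).extremePoints ℝ).Nonempty) :
    (sy S).NL := by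
  obtain ⟨v, hv⟩ := h
  rw [polyhedron_eq] at hv
  intro e he
  rw [mem_extremePoints] at hv
  obtain ⟨hvP, hv⟩ := hv
  have h1 : v + e ∈ (sy S).P := fun k hk => by
    rw [dotProduct_add, he k hk, add_zero]; exact hvP k hk
  have h2 : v - e ∈ (sy S).P := fun k hk => by
    rw [dotProduct_sub, he k hk, sub_zero]; exact hvP k hk
  have h3 : v ∈ openSegment ℝ (v + e) (v - e) := by
    refine ⟨1 / 2, 1 / 2, by norm_num, by norm_num, by norm_num, ?_⟩
    ext t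
    simp only [Pi.add_apply, Pi.smul_apply, Pi.sub_apply, smul_eq_mul]
    ring
  have h4 := (hv _ h1 _ h2 h3).1
  exact add_eq_left.1 h4

end Pool.Agent.V7H11.LF
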