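import Pool.Agent.ST53.TaskLP
import Mathlib.Analysis.Convex.Exposed
import Mathlib.Topology.MetricSpace.Sequences
import Mathlib.Analysis.Normed.Module.FiniteDimension

/-!
# Faces of a pointed polyhedron and sets of tight inequalities
-/

set_option autoImplicit false

namespace Pool.Agent.V7H11.LF

open Finset Matrix Filter Topology

/-- a system of inequalities `g k · x ≤ r k`, `k < m` -/
structure Sy (d : ℕ) where
  g : ℕ → Fin d → ℝ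
  r : ℕ → ℝ
  m : ℕ

namespace Sy

variable {d : ℕ} (Y : Sy d)

/-- the polyhedron -/
def P : Set (Fin d → ℝ) := {x | ∀ k < Y.m, Y.g k ⬝ᵥ x ≤ Y.r k}

open Classical in
/-- the set of the inequalities that are tight at `x` -/
noncomputable def T (x : Fin d → ℝ) : Finset ℕ := (range Y.m).filter fun k => Y.g k ⬝ᵥ x = Y.r k

/-- the points of the polyhedron where the inequalities in `J` are tight -/
def F (J : Finset ℕ) : Set (Fin d → ℝ) := {x | x ∈ Y.P ∧ J ⊆ Y.T x}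

/-- the polyhedron contains no line -/
def NL : Prop := ∀ e, (∀ k < Y.m, Y.g k ⬝ᵥ e = 0) → e = 0

variable {Y}

theorem mem_T {x : Fin d → ℝ} {k : ℕ} : k ∈ Y.T x ↔ k < Y.m ∧ Y.g k ⬝ᵥ x = Y.r k := by
  classical
  unfold T; rw [mem_filter, mem_range]

theorem T_sub (x : Fin d → ℝ) : Y.T x ⊆ range Y.m := fun _ hk => mem_range.2 (mem_T.1 hk).1

theorem F_anti {J J' : Finset ℕ} (h : J ⊆ J') : Y.F J' ⊆ Y.F J := fun _ hx => ⟨hx.1, h.trans hx.2⟩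

/-- small steps along a direction that keeps the tight inequalities tight -/
theorem small_move {x e : Fin d → ℝ} (hx : x ∈ Y.P) (he : ∀ k ∈ Y.T x, Y.g k ⬝ᵥ e = 0) :
    ∃ η : ℝ, 0 < η ∧ x + η • e ∈ Y.P ∧ x - η • e ∈ Y.P := by
  have h1 : ∀ k ∈ range Y.m, ∀ᶠ η : ℝ in 𝓝 0, Y.g k ⬝ᵥ (x + η • e) ≤ Y.r k := by
    intro k hk
    rw [mem_range] at hk
    by_cases h : k ∈ Y.T x
    · refine Eventually.of_forall fun η => ?_
      rw [dotProduct_add, dotProduct_smul, he k h, smul_zero, add_zero]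
      exact hx k hk
    · have h2 : Y.g k ⬝ᵥ x < Y.r k := lt_of_le_of_ne (hx k hk) fun h3 => h (mem_T.2 ⟨hk, h3⟩)
      have h3 : Continuous fun η : ℝ => Y.g k ⬝ᵥ (x + η • e) := by
        have : (fun η : ℝ => Y.g k ⬝ᵥ (x + η • e)) =
            fun η : ℝ => Y.g k ⬝ᵥ x + η * (Y.g k ⬝ᵥ e) := by
          funext η; rw [dotProduct_add, dotProduct_smul, smul_eq_mul]
        rw [this]; fun_prop
      have h4 : ∀ᶠ η : ℝ in 𝓝 0, Y.g k ⬝ᵥ (x + η • e) < Y.r k := by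
        refine h3.continuousAt.eventually_lt continuousAt_const ?_
        simpa using h2
      exact h4.mono fun η h => h.le
  have h2 := (Filter.eventually_all_finset (range Y.m)).2 h1
  rw [Metric.eventually_nhds_iff] at h2
  obtain ⟨ε, hε, h3⟩ := h2
  refine ⟨ε / 2, by positivity, fun k hk => h3 (y := ε / 2) ?_ k (mem_range.2 hk), fun k hk => ?_⟩
  · rw [Real.dist_eq, sub_zero, abs_of_pos (by positivity)]; linarith
  · have h4 := h3 (y := -(ε / 2)) (by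
      rw [Real.dist_eq, sub_zero, abs_neg, abs_of_pos (by positivity)]; linarith) k (mem_range.2 hk)
    rwa [neg_smul, ← sub_eq_add_neg] at h4

/-- a class of polyhedral sets -/
def Ph (R : Set (Fin d → ℝ)) : Prop :=
  ∃ L : Set ((Fin d → ℝ) × ℝ), L.Finite ∧ R = {x | ∀ p ∈ L, p.1 ⬝ᵥ x ≤ p.2}

theorem Ph.inter {R R' : Set (Fin d → ℝ)} (h : Ph R) (h' : Ph R') : Ph (R ∩ R') := by
  obtain ⟨L, h1, rfl⟩ := h
  obtain ⟨L', h2, rfl⟩ := h'
  refine ⟨L ∪ L', h1.union h2, ?_⟩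
  ext x
  simp only [Set.mem_inter_iff, Set.mem_ofPred_eq, Set.mem_union, or_imp, forall_and]

theorem Ph.half (h : Fin d → ℝ) (c : ℝ) : Ph {x | h ⬝ᵥ x ≤ c} :=
  ⟨{(h, c)}, Set.finite_singleton _, by ext x; simp⟩

theorem Ph.eq (h : Fin d → ℝ) (c : ℝ) : Ph {x | h ⬝ᵥ x = c} := by
  have : {x | h ⬝ᵥ x = c} = {x : Fin d → ℝ | h ⬝ᵥ x ≤ c} ∩ {x | (-h) ⬝ᵥ x ≤ -c} := by
    ext x
    simp only [Set.mem_ofPred_eq, Set.mem_inter_iff, neg_dotProduct, neg_le_neg_iff]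
    exact le_antisymm_iff
  rw [this]
  exact (Ph.half h c).inter (Ph.half _ _)

theorem Ph.ball {R : ℕ → Set (Fin d → ℝ)} (J : Finset ℕ) (h : ∀ j ∈ J, Ph (R j)) :
    Ph {x | ∀ j ∈ J, x ∈ R j} := by
  classical
  induction J using Finset.induction_on with
  | empty => exact ⟨∅, Set.finite_empty, by ext x; simp⟩
  | insert a J _ ih =>
    have : {x | ∀ j ∈ insert a J, x ∈ R j} = R a ∩ {x | ∀ j ∈ J, x ∈ R j} := by
      ext x; simp
    rw [this]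
    exact (h a (mem_insert_self _ _)).inter (ih fun j hj => h j (mem_insert_of_mem hj))

theorem Ph.attain {R : Set (Fin d → ℝ)} (hR : Ph R) (hne : R.Nonempty) (h : Fin d → ℝ) (M : ℝ)
    (hM : ∀ x ∈ R, h ⬝ᵥ x ≤ M) : ∃ x ∈ R, ∀ y ∈ R, h ⬝ᵥ y ≤ h ⬝ᵥ x := by
  obtain ⟨L, h1, rfl⟩ := hR
  obtain ⟨x₀, hx₀⟩ := hne
  have : Finite L := h1
  obtain ⟨x, hx, hmax⟩ := Pool.Agent.ST53.TaskLP.main d L (fun p => p.1.1) (fun p => p.1.2) h x₀ M
    (fun i => hx₀ i.1 i.2) (fun x hx => hM x fun p hp => hx ⟨p, hp⟩)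
  exact ⟨x, fun p hp => hx ⟨p, hp⟩, fun y hy => hmax y fun i => hy i.1 i.2⟩

theorem Ph.P : Ph Y.P := by
  have : Y.P = {x | ∀ k ∈ range Y.m, x ∈ {x | Y.g k ⬝ᵥ x ≤ Y.r k}} := by
    ext x; simp [Sy.P]
  rw [this]
  exact Ph.ball _ fun k _ => Ph.half _ _

/-- an unbounded face has a direction of recession -/
theorem recession {J : Finset ℕ} {x₀ : Fin d → ℝ} (hx₀ : x₀ ∈ Y.F J)
    (hu : ¬ Bornology.IsBounded (Y.F J)) :
    ∃ e : Fin d → ℝ, e ≠ 0 ∧ (∀ k < Y.m, Y.g k ⬝ᵥ e ≤ 0) ∧ ∀ k ∈ J, Y.g k ⬝ᵥ e = 0 := by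
  have h1 : ∀ n : ℕ, ∃ x ∈ Y.F J, (n : ℝ) + 1 < ‖x - x₀‖ := by
    intro n
    by_contra hcon
    push Not at hcon
    refine hu ((Metric.isBounded_closedBall (x := x₀) (r := (n : ℝ) + 1)).subset fun x hx => ?_)
    rw [Metric.mem_closedBall, dist_eq_norm]
    exact hcon x hx
  choose x hx hn using h1
  have hpos : ∀ n, 0 < ‖x n - x₀‖ := fun n => lt_trans (by positivity) (hn n)
  set u : ℕ → Fin d → ℝ := fun n => ‖x n - x₀‖⁻¹ • (x n - x₀) with hu'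
  have hu1 : ∀ n, u n ∈ Metric.sphere (0 : Fin d → ℝ) 1 := by
    intro n
    rw [mem_sphere_zero_iff_norm, hu']
    simp only [norm_smul, norm_inv, norm_norm]
    exact inv_mul_cancel₀ (hpos n).ne'
  obtain ⟨e, he, φ, hφ, hlim⟩ := (isCompact_sphere (0 : Fin d → ℝ) 1).tendsto_subseq hu1
  have he0 : e ≠ 0 := by
    rintro rfl
    rw [mem_sphere_zero_iff_norm, norm_zero] at he
    exact zero_ne_one he
  have hcont : ∀ k, Tendsto (fun n => Y.g k ⬝ᵥ u (φ n)) atTop (𝓝 (Y.g k ⬝ᵥ e)) := by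
    intro k
    have h2 : Continuous fun v : Fin d → ℝ => Y.g k ⬝ᵥ v := by
      unfold dotProduct; fun_prop
    exact (h2.tendsto e).comp hlim
  have hval : ∀ k n, Y.g k ⬝ᵥ u n = ‖x n - x₀‖⁻¹ * (Y.g k ⬝ᵥ x n - Y.g k ⬝ᵥ x₀) := by
    intro k n
    rw [hu']
    simp only [dotProduct_smul, dotProduct_sub, smul_eq_mul]
  refine ⟨e, he0, fun k hk => ?_, fun k hk => ?_⟩
  · have h3 : Tendsto (fun n : ℕ => ((n : ℝ) + 1)⁻¹ * (Y.r k - Y.g k ⬝ᵥ x₀)) atTop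
        (𝓝 (0 * (Y.r k - Y.g k ⬝ᵥ x₀))) := by
      refine Tendsto.mul_const _ ?_
      exact tendsto_inv_atTop_zero.comp
        (tendsto_atTop_add_const_right _ _ tendsto_natCast_atTop_atTop)
    rw [zero_mul] at h3
    refine le_of_tendsto_of_tendsto (hcont k) (h3.comp hφ.tendsto_atTop)
      (Eventually.of_forall fun n => ?_)
    simp only [Function.comp_apply]
    rw [hval]
    have h4 : 0 ≤ Y.r k - Y.g k ⬝ᵥ x₀ := by linarith [hx₀.1 k hk]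
    have h5 := (hx (φ n)).1 k hk
    have h6 : ‖x (φ n) - x₀‖⁻¹ ≤ ((φ n : ℝ) + 1)⁻¹ :=
      inv_anti₀ (by positivity) (hn (φ n)).le
    calc ‖x (φ n) - x₀‖⁻¹ * (Y.g k ⬝ᵥ x (φ n) - Y.g k ⬝ᵥ x₀)
        ≤ ‖x (φ n) - x₀‖⁻¹ * (Y.r k - Y.g k ⬝ᵥ x₀) :=
          mul_le_mul_of_nonneg_left (by linarith) (inv_nonneg.2 (hpos _).le)
      _ ≤ ((φ n : ℝ) + 1)⁻¹ * (Y.r k - Y.g k ⬝ᵥ x₀) := mul_le_mul_of_nonneg_right h6 h4
  · have h3 : (fun n => Y.g k ⬝ᵥ u (φ n)) = fun _ => (0 : ℝ) := by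
      funext n
      rw [hval, (mem_T.1 ((hx (φ n)).2 hk)).2, (mem_T.1 (hx₀.2 hk)).2, sub_self, mul_zero]
    have h4 := hcont k
    rw [h3] at h4
    exact tendsto_nhds_unique h4 tendsto_const_nhds

/-- The main lemma. Let `J` be a set of inequalities that cannot be tight together although all
`J \ {i}` can. For each nonempty `I ⊆ J` there is a bounded face in whose tight inequalities from
`J` are exactly those outside `I`. -/
theorem exists_bounded (hNL : Y.NL) {J : Finset ℕ} (hJm : J ⊆ range Y.m)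
    (hJ : ¬ (Y.F J).Nonempty) (hJ' : ∀ i ∈ J, (Y.F (J.erase i)).Nonempty) {I : Finset ℕ}
    (hI : I ⊆ J) (hne : I.Nonempty) :
    ∃ x ∈ Y.P, Bornology.IsBounded (Y.F (Y.T x)) ∧ Y.T x ∩ J = J \ I := by
  classical
  choose! y hy using hJ'
  have hyP : ∀ i ∈ J, ∀ k < Y.m, Y.g k ⬝ᵥ y i ≤ Y.r k := fun i hi => (hy i hi).1
  have hyt : ∀ i ∈ J, ∀ j ∈ J, j ≠ i → Y.g j ⬝ᵥ y i = Y.r j := fun i hi j hj hji =>
    (mem_T.1 ((hy i hi).2 (mem_erase.2 ⟨hji, hj⟩))).2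
  have ht : ∀ i ∈ J, 0 < Y.r i - Y.g i ⬝ᵥ y i := by
    intro i hi
    have h1 := hyP i hi i (mem_range.1 (hJm hi))
    refine lt_of_le_of_ne (by linarith) fun h2 => hJ ⟨y i, (hy i hi).1, fun j hj => ?_⟩
    by_cases hji : j = i
    · subst hji
      exact mem_T.2 ⟨mem_range.1 (hJm hj), by linarith⟩
    · exact (hy i hi).2 (mem_erase.2 ⟨hji, hj⟩)
  obtain ⟨i0, hi0⟩ := hne
  -- the set of the points with equal slacks in `I`
  set R : Set (Fin d → ℝ) := {x | x ∈ Y.P ∧ (∀ j ∈ J \ I, Y.g j ⬝ᵥ x = Y.r j) ∧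
    ∀ i ∈ I, Y.r i - Y.g i ⬝ᵥ x = Y.r i0 - Y.g i0 ⬝ᵥ x} with hR
  have hRPh : Ph R := by
    have e : R = Y.P ∩ ({x | ∀ j ∈ J \ I, x ∈ {x | Y.g j ⬝ᵥ x = Y.r j}} ∩
        {x | ∀ i ∈ I, x ∈ {x | (Y.g i - Y.g i0) ⬝ᵥ x = Y.r i - Y.r i0}}) := by
      ext x
      simp only [hR, Set.mem_ofPred_eq, Set.mem_inter_iff, sub_dotProduct]
      refine and_congr_right fun _ => and_congr_right fun _ => forall₂_congr fun i _ => ?_
      constructor <;> intro h <;> linarith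
    rw [e]
    exact Ph.P.inter ((Ph.ball _ fun j _ => Ph.eq _ _).inter (Ph.ball _ fun j _ => Ph.eq _ _))
  -- weighted combinations of a point with the `y i`
  have comb : ∀ (c : ℝ) (v : Fin d → ℝ) (lam : ℕ → ℝ), 0 ≤ c → v ∈ Y.P →
      (∀ j ∈ J \ I, Y.g j ⬝ᵥ v = Y.r j) → (∀ i ∈ I, 0 ≤ lam i) → 0 < c + ∑ i ∈ I, lam i →
      ∀ z, z = (c + ∑ i ∈ I, lam i)⁻¹ • (c • v + ∑ i ∈ I, lam i • y i) →
      z ∈ Y.P ∧ (∀ j ∈ J \ I, Y.g j ⬝ᵥ z = Y.r j) ∧ ∀ i ∈ I, Y.r i - Y.g i ⬝ᵥ z =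
        (c + ∑ i ∈ I, lam i)⁻¹ * (c * (Y.r i - Y.g i ⬝ᵥ v) + lam i * (Y.r i - Y.g i ⬝ᵥ y i)) := by
    intro c v lam hc hv hvt hlam hpos z hz
    set W := c + ∑ i ∈ I, lam i with hW
    have hval : ∀ k, Y.g k ⬝ᵥ z = W⁻¹ * (c * (Y.g k ⬝ᵥ v) + ∑ i ∈ I, lam i * (Y.g k ⬝ᵥ y i)) := by
      intro k
      rw [hz, dotProduct_smul, dotProduct_add, dotProduct_smul, dotProduct_sum, smul_eq_mul,
        smul_eq_mul]
      simp only [dotProduct_smul, smul_eq_mul]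
    refine ⟨fun k hk => ?_, fun j hj => ?_, fun i hi => ?_⟩
    · rw [hval, inv_mul_le_iff₀ hpos, hW, add_mul, Finset.sum_mul]
      exact add_le_add (mul_le_mul_of_nonneg_left (hv k hk) hc)
        (Finset.sum_le_sum fun i hi => mul_le_mul_of_nonneg_left (hyP i (hI hi) k hk) (hlam i hi))
    · rw [hval, inv_mul_eq_iff_eq_mul₀ hpos.ne', hW, add_mul, Finset.sum_mul, hvt j hj]
      congr 1
      refine Finset.sum_congr rfl fun i hi => ?_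
      rw [hyt i (hI hi) j (mem_sdiff.1 hj).1 fun h => (mem_sdiff.1 hj).2 (h ▸ hi)]
    · rw [hval]
      have h1 : ∑ k ∈ I, lam k * (Y.g i ⬝ᵥ y k) =
          (∑ k ∈ I, lam k) * Y.r i - lam i * (Y.r i - Y.g i ⬝ᵥ y i) := by
        rw [Finset.sum_mul, ← Finset.sum_erase_add _ _ hi, ← Finset.sum_erase_add _ _ hi]
        have : ∑ k ∈ I.erase i, lam k * (Y.g i ⬝ᵥ y k) = ∑ k ∈ I.erase i, lam k * Y.r i := by
          refine Finset.sum_congr rfl fun k hk => ?_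
          rw [hyt k (hI (mem_of_mem_erase hk)) i (hI hi) (ne_of_mem_erase hk).symm]
        rw [this]; ring
      rw [h1]
      have h2 : Y.r i = W⁻¹ * ((c + ∑ k ∈ I, lam k) * Y.r i) := by
        rw [← hW, ← mul_assoc, inv_mul_cancel₀ hpos.ne', one_mul]
      nth_rw 1 [h2]
      ring
  -- `R` is not empty
  have hRne : R.Nonempty := by
    set lam : ℕ → ℝ := fun i => (Y.r i - Y.g i ⬝ᵥ y i)⁻¹ with hlam
    have hl : ∀ i ∈ I, 0 < lam i := fun i hi => inv_pos.2 (ht i (hI hi))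
    have hs : 0 < ∑ i ∈ I, lam i := Finset.sum_pos hl ⟨i0, hi0⟩
    obtain ⟨h1, h2, h3⟩ := comb 0 (y i0) lam le_rfl (hy i0 (hI hi0)).1
      (fun j hj => hyt i0 (hI hi0) j (mem_sdiff.1 hj).1 fun h => (mem_sdiff.1 hj).2 (h ▸ hi0))
      (fun i hi => (hl i hi).le) (by rw [zero_add]; exact hs) _ rfl
    refine ⟨_, h1, h2, fun i hi => ?_⟩
    rw [h3 i hi, h3 i0 hi0, hlam]
    simp only
    rw [inv_mul_cancel₀ (ht i (hI hi)).ne', inv_mul_cancel₀ (ht i0 (hI hi0)).ne']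
    ring
  -- the smallest common slack
  have hi0m : i0 < Y.m := mem_range.1 (hJm (hI hi0))
  obtain ⟨x1, hx1, hmax1⟩ := hRPh.attain hRne (Y.g i0) (Y.r i0) fun x hx => hx.1 i0 hi0m
  -- among these points one with the smallest sum of all slacks
  set R' : Set (Fin d → ℝ) := R ∩ {x | Y.g i0 ⬝ᵥ x = Y.g i0 ⬝ᵥ x1} with hR'
  obtain ⟨x0, hx0, hmax0⟩ := (hRPh.inter (Ph.eq (Y.g i0) (Y.g i0 ⬝ᵥ x1))).attain
    ⟨x1, hx1, rfl⟩ (∑ k ∈ range Y.m, Y.g k) (∑ k ∈ range Y.m, Y.r k) (by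
      intro x hx
      rw [sum_dotProduct]
      exact Finset.sum_le_sum fun k hk => hx.1.1 k (mem_range.1 hk))
  obtain ⟨⟨hx0P, hx0t, hx0s⟩, hx0e⟩ := hx0
  have hx0e' : Y.g i0 ⬝ᵥ x0 = Y.g i0 ⬝ᵥ x1 := hx0e
  have hσ : 0 < Y.r i0 - Y.g i0 ⬝ᵥ x0 := by
    have h1 := hx0P i0 hi0m
    refine lt_of_le_of_ne (by linarith) fun h2 => hJ ⟨x0, hx0P, fun j hj => ?_⟩
    refine mem_T.2 ⟨mem_range.1 (hJm hj), ?_⟩
    by_cases hjI : j ∈ I
    · have := hx0s j hjI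
      linarith
    · exact hx0t j (mem_sdiff.2 ⟨hj, hjI⟩)
  refine ⟨x0, hx0P, ?_, ?_⟩
  · by_contra hunb
    obtain ⟨e, he0, hek, heT⟩ := recession (Y := Y) (J := Y.T x0) (x₀ := x0)
      ⟨hx0P, Finset.Subset.rfl⟩ hunb
    obtain ⟨η, hη, _, hmove⟩ := small_move hx0P heT
    have hm1 : ∀ k, Y.g k ⬝ᵥ (x0 - η • e) = Y.g k ⬝ᵥ x0 - η * (Y.g k ⬝ᵥ e) := by
      intro k; rw [dotProduct_sub, dotProduct_smul, smul_eq_mul]
    have hm2 : ∀ j ∈ J \ I, Y.g j ⬝ᵥ (x0 - η • e) = Y.r j := by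
      intro j hj
      have hjm := mem_range.1 (hJm (mem_sdiff.1 hj).1)
      rw [hm1, heT j (mem_T.2 ⟨hjm, hx0t j hj⟩), mul_zero, sub_zero, hx0t j hj]
    set lam : ℕ → ℝ := fun i => η * (-(Y.g i ⬝ᵥ e)) / (Y.r i - Y.g i ⬝ᵥ y i) with hlam
    have hIm : ∀ i ∈ I, i < Y.m := fun i hi => mem_range.1 (hJm (hI hi))
    have hl : ∀ i ∈ I, 0 ≤ lam i := fun i hi =>
      div_nonneg (mul_nonneg hη.le (by linarith [hek i (hIm i hi)])) (ht i (hI hi)).le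
    have hs : 0 ≤ ∑ i ∈ I, lam i := Finset.sum_nonneg hl
    obtain ⟨h1, h2, h3⟩ := comb 1 (x0 - η • e) lam zero_le_one hmove hm2 hl (by linarith) _ rfl
    set z := (1 + ∑ i ∈ I, lam i)⁻¹ • ((1 : ℝ) • (x0 - η • e) + ∑ i ∈ I, lam i • y i) with hz
    have h4 : ∀ i ∈ I, Y.r i - Y.g i ⬝ᵥ z =
        (1 + ∑ i ∈ I, lam i)⁻¹ * (Y.r i0 - Y.g i0 ⬝ᵥ x0) := by
      intro i hi
      rw [h3 i hi, hm1, ← hx0s i hi, hlam]
      simp only
      rw [div_mul_cancel₀ _ (ht i (hI hi)).ne']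
      ring
    have hzR : z ∈ R := ⟨h1, h2, fun i hi => by rw [h4 i hi, h4 i0 hi0]⟩
    have h5 := hmax1 z hzR
    have h6 := h4 i0 hi0
    have h7 : Y.r i0 - Y.g i0 ⬝ᵥ x0 ≤ (1 + ∑ i ∈ I, lam i)⁻¹ * (Y.r i0 - Y.g i0 ⬝ᵥ x0) := by
      rw [← h6]; linarith
    have h8 : ∑ i ∈ I, lam i = 0 := by
      have h9 : 1 ≤ (1 + ∑ i ∈ I, lam i)⁻¹ := by
        by_contra hcon
        push Not at hcon
        nlinarith
      have h10 := (one_le_inv₀ (by linarith)).1 h9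
      linarith
    have h9 : ∀ i ∈ I, Y.g i ⬝ᵥ e = 0 := by
      intro i hi
      have h10 := (Finset.sum_eq_zero_iff_of_nonneg hl).1 h8 i hi
      have h11 : η * (-(Y.g i ⬝ᵥ e)) = 0 := by
        rcases div_eq_zero_iff.1 h10 with h | h
        · exact h
        · exact absurd h (ht i (hI hi)).ne'
      rcases mul_eq_zero.1 h11 with h | h
      · exact absurd h hη.ne'
      · linarith
    have h10 : x0 - η • e ∈ R' := by
      refine ⟨⟨hmove, hm2, fun i hi => ?_⟩, ?_⟩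
      · rw [hm1, hm1, h9 i hi, h9 i0 hi0, mul_zero, sub_zero, sub_zero]
        exact hx0s i hi
      · change Y.g i0 ⬝ᵥ (x0 - η • e) = _
        rw [hm1, h9 i0 hi0, mul_zero, sub_zero, hx0e']
    have h11 := hmax0 _ h10
    rw [dotProduct_sub, dotProduct_smul, smul_eq_mul, sum_dotProduct, sum_dotProduct] at h11
    have h12 : 0 ≤ ∑ k ∈ range Y.m, Y.g k ⬝ᵥ e := by
      by_contra hcon
      push Not at hcon
      nlinarith
    have h13 : ∀ k ∈ range Y.m, Y.g k ⬝ᵥ e = 0 := by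
      have h14 : ∑ k ∈ range Y.m, -(Y.g k ⬝ᵥ e) = 0 := by
        have h15 : 0 ≤ ∑ k ∈ range Y.m, -(Y.g k ⬝ᵥ e) :=
          Finset.sum_nonneg fun k hk => by linarith [hek k (mem_range.1 hk)]
        rw [Finset.sum_neg_distrib] at h15 ⊢
        linarith
      intro k hk
      have := (Finset.sum_eq_zero_iff_of_nonneg fun k hk => by
        linarith [hek k (mem_range.1 hk)]).1 h14 k hk
      linarith
    exact he0 (hNL e fun k hk => h13 k (mem_range.2 hk))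
  · ext j
    rw [Finset.mem_inter, Finset.mem_sdiff]
    constructor
    · rintro ⟨h1, h2⟩
      refine ⟨h2, fun hjI => ?_⟩
      have h3 := (mem_T.1 h1).2
      have h4 := hx0s j hjI
      linarith
    · rintro ⟨h1, h2⟩
      exact ⟨mem_T.2 ⟨mem_range.1 (hJm h1), hx0t j (mem_sdiff.2 ⟨h1, h2⟩)⟩, h1⟩

end Sy

end Pool.Agent.V7H11.LF
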