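import Pool.Agent.V7H11.LF.LowSys

/-!
# The polyhedra with a hidden vertex: the answers to the questions
-/

set_option autoImplicit false

namespace Pool.Agent.V7H11.LF

open Finset Matrix Pool.Agent.W986.BF

section

variable {k n : ℕ} {a : ℕ → ℕ}

/-- every group is hit -/
def Hit (k n : ℕ) (J : Finset ℕ) : Prop := ∀ i < k, ∃ b < n, i * n + b ∈ J

/-- some group is forced to vanish -/
def Van (k n : ℕ) (J : Finset ℕ) : Prop := ∃ i < k, 2 * (k * n) + i ∈ J ∧
  ((∃ b < n, i * n + b ∈ J ∧ k * n + (i * n + b) ∈ J) ∨ ∀ b < n, k * n + (i * n + b) ∈ J)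

theorem al_pos (a : ℕ → ℕ) (i b : ℕ) : (0 : ℝ) < ((al a i b : ℚ) : ℝ) := by
  unfold al; split_ifs <;> norm_num

theorem al_le (a : ℕ → ℕ) (i b : ℕ) : ((al a i b : ℚ) : ℝ) ≤ 2 := by
  unfold al; split_ifs <;> norm_num

theorem al_one {a : ℕ → ℕ} {i b : ℕ} (h : b ≠ a i) : ((al a i b : ℚ) : ℝ) = 1 := by
  unfold al; rw [if_neg h]; norm_num

theorem al_two {a : ℕ → ℕ} {i b : ℕ} (h : b = a i) : ((al a i b : ℚ) : ℝ) = 2 := by
  unfold al; rw [if_pos h]; norm_num

theorem K_pos {k : ℕ} (hk : 1 ≤ k) : (0 : ℝ) < 2 * (k : ℝ) - 1 / 2 := by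
  have : (1 : ℝ) ≤ k := by exact_mod_cast hk
  linarith

theorem point_missing {J : Finset ℕ} (hJ : J ⊆ range (2 * (k * n) + k)) {i0 : ℕ} (hi0 : i0 < k)
    (h0 : ∀ b < n, i0 * n + b ∉ J) :
    ∃ x ∈ (hs k n a).F J, U k n x i0 = 1 ∧ ∀ b < n, X k n x i0 b = 0 := by
  set x := mkv k n (fun i => if i = i0 then 1 else 0) fun _ _ => 0 with hx
  have hU : ∀ i < k, U k n x i = if i = i0 then 1 else 0 := fun i hi => by rw [hx, U_mkv hi]
  have hX : ∀ i < k, ∀ b < n, X k n x i b = 0 := fun i hi b hb => by rw [hx, X_mkv hi hb]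
  have hsum : ∑ j ∈ range k, U k n x j = 1 := by
    rw [Finset.sum_congr rfl fun j hj => hU j (mem_range.1 hj), Finset.sum_ite_eq',
      if_pos (mem_range.2 hi0)]
  have hXs : ∀ i < k, ∑ b ∈ range n, X k n x i b = 0 := fun i hi =>
    Finset.sum_eq_zero fun b hb => hX i hi b (mem_range.1 hb)
  refine ⟨x, ⟨mem_P.2 ⟨fun i hi b hb => ?_, fun i hi b hb => (hX i hi b hb).ge,
    fun i hi => ?_⟩, fun j hj => ?_⟩, by rw [hU i0 hi0, if_pos rfl], hX i0 hi0⟩
  · rw [hX i hi b hb, hU i hi]
    split_ifs <;> simp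
  · rw [hXs i hi, hsum]; simp
  · rcases cases_idx (mem_range.1 (hJ hj)) with ⟨i, hi, b, hb, rfl⟩ | ⟨i, hi, b, hb, rfl⟩ |
      ⟨i, hi, rfl⟩
    · have hne : i ≠ i0 := fun h => h0 b hb (h ▸ hj)
      rw [mem_TA hi hb, hX i hi b hb, hU i hi, if_neg hne, mul_zero]
    · rw [mem_TB hi hb, hX i hi b hb]
    · rw [mem_TC hi, hXs i hi, hsum]; simp

theorem F_nonempty {J : Finset ℕ} (hJ : J ⊆ range (2 * (k * n) + k)) (h : ¬ Hit k n J) :
    ((hs k n a).F J).Nonempty := by
  unfold Hit at h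
  push Not at h
  obtain ⟨i0, hi0, h0⟩ := h
  obtain ⟨x, hx, _⟩ := point_missing (a := a) hJ hi0 h0
  exact ⟨x, hx⟩

theorem F_empty (hk : 1 ≤ k) {J : Finset ℕ} (h : Hit k n J)
    (h' : ∃ i < k, ∃ b < n, i * n + b ∈ J ∧ b ≠ a i) : ¬ ((hs k n a).F J).Nonempty := by
  rintro ⟨x, hx, hJ⟩
  rw [mem_P] at hx
  obtain ⟨h1, h2, h3⟩ := hx
  have hK := K_pos hk
  set τ := ∑ j ∈ range k, U k n x j - 1 with hτ
  have hle : ∀ i < k, ∀ b < n, X k n x i b ≤ ∑ b ∈ range n, X k n x i b := fun i hi b hb =>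
    Finset.single_le_sum (f := fun b => X k n x i b) (fun c hc => h2 i hi c (mem_range.1 hc))
      (mem_range.2 hb)
  have hgen : ∀ i < k, (2 * (k : ℝ) - 1 / 2) * U k n x i ≤ 2 * τ := by
    intro i hi
    obtain ⟨b, hb, hbJ⟩ := h i hi
    have e1 := (mem_TA hi hb).1 (hJ hbJ)
    have e2 := hle i hi b hb
    have e3 := h3 i hi
    have e4 := h2 i hi b hb
    have e5 : U k n x i ≤ 2 * X k n x i b := by
      rw [← e1]
      exact mul_le_mul_of_nonneg_right (al_le a i b) e4
    have e6 : (2 * (k : ℝ) - 1 / 2) * X k n x i b ≤ (2 * (k : ℝ) - 1 / 2) * ∑ b ∈ range n, X k n x i b :=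
      mul_le_mul_of_nonneg_left e2 hK.le
    have e7 := mul_le_mul_of_nonneg_left e5 hK.le
    linarith
  obtain ⟨i1, hi1, b1, hb1, hJ1, hne⟩ := h'
  have hone : (2 * (k : ℝ) - 1 / 2) * U k n x i1 ≤ τ := by
    have e1 := (mem_TA hi1 hb1).1 (hJ hJ1)
    rw [al_one hne, one_mul] at e1
    rw [← e1]
    exact (mul_le_mul_of_nonneg_left (hle i1 hi1 b1 hb1) hK.le).trans (h3 i1 hi1)
  have hτ0 : 0 ≤ τ := by
    refine le_trans ?_ (h3 i1 hi1)
    exact mul_nonneg hK.le (Finset.sum_nonneg fun b hb => h2 i1 hi1 b (mem_range.1 hb))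
  have hsum : (2 * (k : ℝ) - 1 / 2) * ∑ j ∈ range k, U k n x j ≤ (2 * (k : ℝ) - 1 / 2) * τ := by
    rw [← Finset.add_sum_erase _ _ (mem_range.2 hi1), mul_add, Finset.mul_sum]
    have e1 : ∑ i ∈ (range k).erase i1, (2 * (k : ℝ) - 1 / 2) * U k n x i ≤
        ∑ i ∈ (range k).erase i1, 2 * τ :=
      Finset.sum_le_sum fun i hi => hgen i (mem_range.1 (mem_of_mem_erase hi))
    rw [Finset.sum_const, card_erase_of_mem (mem_range.2 hi1), card_range, nsmul_eq_mul,
      Nat.cast_sub hk, Nat.cast_one] at e1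
    linarith
  have := le_of_mul_le_mul_left hsum hK
  linarith

/-- the facts about the points with a forced group -/
theorem van_facts (hk : 1 ≤ k) (hn : 1 ≤ n) {J : Finset ℕ} (hV : Van k n J)
    {x : Fin (k + k * n) → ℝ} (hx : x ∈ (hs k n a).F J) :
    ∑ j ∈ range k, U k n x j = 1 ∧ (∀ i < k, ∀ b < n, X k n x i b = 0) ∧
      ∀ i < k, 0 ≤ U k n x i := by
  obtain ⟨hx, hJ⟩ := hx
  rw [mem_P] at hx
  obtain ⟨h1, h2, h3⟩ := hx
  have hK := K_pos hk
  obtain ⟨i, hi, hC, hcase⟩ := hV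
  have hCt := (mem_TC hi).1 (hJ hC)
  have hzero : ∀ b < n, X k n x i b = 0 := by
    rcases hcase with ⟨b, hb, hA, hB⟩ | hall
    · have e1 := (mem_TA hi hb).1 (hJ hA)
      have e2 := (mem_TB hi hb).1 (hJ hB)
      rw [e2, mul_zero] at e1
      intro c hc
      have e3 := h1 i hi c hc
      rw [← e1] at e3
      have e4 := h2 i hi c hc
      have e5 := al_pos a i c
      by_contra hne
      have e6 : 0 < X k n x i c := lt_of_le_of_ne e4 (Ne.symm hne)
      have := mul_pos e5 e6
      linarith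
    · intro b hb
      exact (mem_TB hi hb).1 (hJ (hall b hb))
  have hs0 : ∑ b ∈ range n, X k n x i b = 0 :=
    Finset.sum_eq_zero fun b hb => hzero b (mem_range.1 hb)
  rw [hs0, mul_zero] at hCt
  have hsum : ∑ j ∈ range k, U k n x j = 1 := by linarith
  refine ⟨hsum, fun i' hi' b hb => ?_, fun i' hi' => ?_⟩
  · have e1 := h3 i' hi'
    rw [hsum, sub_self] at e1
    have e2 : ∑ b ∈ range n, X k n x i' b ≤ 0 := by
      by_contra hcon
      push Not at hcon
      have := mul_pos hK hcon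
      linarith
    have e3 : X k n x i' b ≤ ∑ b ∈ range n, X k n x i' b :=
      Finset.single_le_sum (f := fun b => X k n x i' b)
        (fun c hc => h2 i' hi' c (mem_range.1 hc)) (mem_range.2 hb)
    exact le_antisymm (e3.trans e2) (h2 i' hi' b hb)
  · have e1 := h1 i' hi' 0 (by omega)
    exact (mul_nonneg (al_pos a i' 0).le (h2 i' hi' 0 (by omega))).trans e1

theorem F_bounded (hk : 1 ≤ k) (hn : 1 ≤ n) {J : Finset ℕ} (hV : Van k n J) :
    Bornology.IsBounded ((hs k n a).F J) := by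
  refine (Metric.isBounded_closedBall (x := (0 : Fin (k + k * n) → ℝ)) (r := 1)).subset
    fun x hx => ?_
  obtain ⟨h1, h2, h3⟩ := van_facts hk hn hV hx
  rw [mem_closedBall_zero_iff, pi_norm_le_iff_of_nonneg zero_le_one]
  intro t
  rw [Real.norm_eq_abs]
  by_cases ht : (t : ℕ) < k
  · have e1 : x t = U k n x t := by
      unfold U co; rw [dif_pos (by omega)]
    rw [e1, abs_of_nonneg (h3 t ht), ← h1]
    exact Finset.single_le_sum (f := fun j => U k n x j) (fun c hc => h3 c (mem_range.1 hc))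
      (mem_range.2 ht)
  · obtain ⟨i, hi, b, hb, e2⟩ := idx_ex (k := k) (n := n) (j := t - k) (by have := t.2; omega)
    have e3 : x t = X k n x i b := by
      unfold X co
      have e4 : k + (i * n + b) = t := by omega
      rw [dif_pos (by have := t.2; omega)]
      simp only [e4]
    rw [e3, h2 i hi b hb]; simp

/-- the inequalities whose slack is forced to vanish -/
def Cl (k n : ℕ) (J : Finset ℕ) (j : ℕ) : Prop :=
  j ∈ J ∨ 2 * (k * n) + k ≤ j ∨ ∃ i < k, (∃ b < n, i * n + b ∈ J ∧ k * n + (i * n + b) ∈ J) ∧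
    ∃ b < n, j = i * n + b ∨ j = k * n + (i * n + b)

open Classical in
theorem F_slack (hk : 1 ≤ k) (hn : 1 ≤ n) {J : Finset ℕ} (hJ : J ⊆ range (2 * (k * n) + k))
    (hH : ¬ Hit k n J) (hV : ¬ Van k n J)
    (h : ∃ i < k, 2 * (k * n) + i ∉ J ∨ ∃ b < n, (b ≠ a i ∧ k * n + (i * n + b) ∉ J) ∨
      (b = a i ∧ k * n + (i * n + b) ∈ J)) {τ : ℝ} (hτ0 : 0 < τ) :
    ∃ x ∈ (hs k n a).F J, ∑ j ∈ range k, U k n x j = 1 + τ ∧
      ∀ j < 2 * (k * n) + k, ¬ Cl k n J j →
        τ / (16 * (k : ℝ) ^ 2 * n) ≤ (hs k n a).r j - (hs k n a).g j ⬝ᵥ x := by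
  unfold Hit at hH
  push Not at hH
  obtain ⟨i0, hi0, h0⟩ := hH
  have hK := K_pos hk
  have hk' : (1 : ℝ) ≤ k := by exact_mod_cast hk
  have hn' : (1 : ℝ) ≤ n := by exact_mod_cast hn
  have hk0 : (0 : ℝ) < k := by linarith
  have hn0 : (0 : ℝ) < n := by linarith
  set K : ℝ := 2 * (k : ℝ) - 1 / 2 with hKdef
  -- the allowed members of a group
  set R : ℕ → Finset ℕ := fun i => (range n).filter fun b => k * n + (i * n + b) ∉ J with hR
  set y : ℕ → ℕ → ℝ := fun i b => if (∃ c < n, i * n + c ∈ J) ∧ i * n + b ∉ J then 1 / 2 else 1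
    with hy
  have hy2 : ∀ i b, 1 / 2 ≤ y i b := by
    intro i b; simp only [hy]; split_ifs <;> norm_num
  have hy1 : ∀ i b, y i b ≤ 1 := by
    intro i b; simp only [hy]; split_ifs <;> norm_num
  have hyJ : ∀ i b, i * n + b ∈ J → y i b = 1 := by
    intro i b hb; simp only [hy]; rw [if_neg fun h => h.2 hb]
  have halinv : ∀ i b, ((al a i b : ℚ) : ℝ)⁻¹ ≤ 1 ∧ 1 / 2 ≤ ((al a i b : ℚ) : ℝ)⁻¹ := by
    intro i b
    unfold al; split_ifs <;> norm_num
  set s : ℕ → ℝ := fun i => ∑ b ∈ R i, y i b * ((al a i b : ℚ) : ℝ)⁻¹ with hs'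
  have hterm : ∀ i b, 0 ≤ y i b * ((al a i b : ℚ) : ℝ)⁻¹ := fun i b =>
    mul_nonneg (by linarith [hy2 i b]) (by linarith [(halinv i b).2])
  have hsge : ∀ i, ∀ b ∈ R i, y i b * ((al a i b : ℚ) : ℝ)⁻¹ ≤ s i := fun i b hb =>
    Finset.single_le_sum (f := fun b => y i b * ((al a i b : ℚ) : ℝ)⁻¹)
      (fun c _ => hterm i c) hb
  have hsn : ∀ i, s i ≤ n := by
    intro i
    calc s i ≤ ∑ b ∈ R i, (1 : ℝ) := Finset.sum_le_sum fun b _ => by
          have := hy1 i b
          have := (halinv i b).1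
          have := hy2 i b
          have := (halinv i b).2
          nlinarith
      _ = (R i).card := by simp
      _ ≤ n := by
          have := Finset.card_filter_le (range n) fun b => k * n + (i * n + b) ∉ J
          rw [card_range] at this
          exact_mod_cast this
  set ZA : ℕ → Prop := fun i => ∃ b < n, i * n + b ∈ J ∧ k * n + (i * n + b) ∈ J with hZA
  have hCn : ∀ i < k, 2 * (k * n) + i ∈ J → ¬ ZA i ∧ (R i).Nonempty := by
    intro i hi hC
    refine ⟨fun hz => hV ⟨i, hi, hC, Or.inl hz⟩, ?_⟩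
    by_contra hcon
    rw [Finset.not_nonempty_iff_eq_empty] at hcon
    refine hV ⟨i, hi, hC, Or.inr fun b hb => ?_⟩
    by_contra hb'
    have : b ∈ R i := mem_filter.2 ⟨mem_range.2 hb, hb'⟩
    rw [hcon] at this
    exact absurd this (notMem_empty _)
  have hhitR : ∀ i, ¬ ZA i → ∀ c < n, i * n + c ∈ J → c ∈ R i := by
    intro i hz c hc hcJ
    exact mem_filter.2 ⟨mem_range.2 hc, fun hB => hz ⟨c, hc, hcJ, hB⟩⟩
  have hs2 : ∀ i, ¬ ZA i → (R i).Nonempty → 1 / 2 ≤ s i := by
    intro i hz hne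
    by_cases hhit : ∃ c < n, i * n + c ∈ J
    · obtain ⟨c, hc, hcJ⟩ := hhit
      refine le_trans ?_ (hsge i c (hhitR i hz c hc hcJ))
      rw [hyJ i c hcJ, one_mul]
      exact (halinv i c).2
    · obtain ⟨b, hb⟩ := hne
      refine le_trans ?_ (hsge i b hb)
      have : y i b = 1 := by simp only [hy]; rw [if_neg fun h => hhit h.1]
      rw [this, one_mul]
      exact (halinv i b).2
  obtain ⟨i1, hi1, h1⟩ := h
  have hs1 : 2 * (k * n) + i1 ∈ J → 1 ≤ s i1 := by
    intro hC
    obtain ⟨hz, hne⟩ := hCn i1 hi1 hC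
    rcases h1 with h1 | ⟨b, hb, ⟨h1, h2⟩ | ⟨h1, h2⟩⟩
    · exact absurd hC h1
    · have hbR : b ∈ R i1 := mem_filter.2 ⟨mem_range.2 hb, h2⟩
      by_cases hhit : ∃ c < n, i1 * n + c ∈ J
      · obtain ⟨c, hc, hcJ⟩ := hhit
        have hcR := hhitR i1 hz c hc hcJ
        by_cases hca : c = a i1
        · have hcb : c ≠ b := fun h => h1 (h ▸ hca)
          have e1 : y i1 c * ((al a i1 c : ℚ) : ℝ)⁻¹ + y i1 b * ((al a i1 b : ℚ) : ℝ)⁻¹ ≤
              s i1 := by
            rw [← Finset.sum_pair hcb (f := fun b => y i1 b * ((al a i1 b : ℚ) : ℝ)⁻¹)]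
            refine Finset.sum_le_sum_of_subset_of_nonneg ?_ fun c _ _ => hterm i1 c
            intro t ht
            rcases mem_insert.1 ht with rfl | ht
            · exact hcR
            · rw [mem_singleton.1 ht]; exact hbR
          refine le_trans ?_ e1
          rw [hyJ i1 c hcJ, al_one h1, inv_one, one_mul, mul_one]
          have := (halinv i1 c).2
          have := hy2 i1 b
          linarith
        · refine le_trans ?_ (hsge i1 c hcR)
          rw [hyJ i1 c hcJ, al_one hca, inv_one, one_mul]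
      · refine le_trans ?_ (hsge i1 b hbR)
        have : y i1 b = 1 := by simp only [hy]; rw [if_neg fun h => hhit h.1]
        rw [this, al_one h1, inv_one, one_mul]
    · have hRa : ∀ c ∈ R i1, c ≠ a i1 := by
        intro c hc h3
        rw [← h1] at h3
        subst h3
        exact (mem_filter.1 hc).2 h2
      by_cases hhit : ∃ c < n, i1 * n + c ∈ J
      · obtain ⟨c, hc, hcJ⟩ := hhit
        have hcR := hhitR i1 hz c hc hcJ
        refine le_trans ?_ (hsge i1 c hcR)
        rw [hyJ i1 c hcJ, al_one (hRa c hcR), inv_one, one_mul]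
      · obtain ⟨c, hcR⟩ := hne
        refine le_trans ?_ (hsge i1 c hcR)
        have : y i1 c = 1 := by simp only [hy]; rw [if_neg fun h => hhit h.1]
        rw [this, al_one (hRa c hcR), inv_one, one_mul]
  -- the sizes of the groups
  set ε : ℝ := 1 / (4 * (k : ℝ) ^ 2) with hε
  have hε0 : 0 < ε := by positivity
  have hKε : K * ε ≤ 1 / 2 := by
    rw [hε, mul_one_div, div_le_iff₀ (by positivity), hKdef]
    nlinarith
  have hkε : (2 * (k : ℝ) - 1) + K * (k * ε) ≤ K := by
    have e1 : (k : ℝ) * ε = 1 / (4 * k) := by rw [hε]; field_simp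
    have e2 : K * (1 / (4 * (k : ℝ))) ≤ 1 / 2 := by
      rw [mul_one_div, div_le_iff₀ (by positivity), hKdef]; linarith
    rw [e1]
    have e3 : K = 2 * (k : ℝ) - 1 / 2 := hKdef
    linarith
  set w : ℕ → ℝ := fun i => if ZA i ∨ ¬ (R i).Nonempty then 0 else
    if 2 * (k * n) + i ∈ J then τ / (K * s i) else ε * τ / n with hw
  have hw0 : ∀ i, 0 ≤ w i := by
    intro i
    simp only [hw]
    split_ifs with hc hd
    · exact le_rfl
    · push Not at hc
      have := hs2 i hc.1 hc.2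
      have h5 : 0 < s i := by linarith
      positivity
    · positivity
  have hKs : ∀ i, K * (ε * τ / n) * s i ≤ τ / 2 := by
    intro i
    have e1 : K * (ε * τ / n) * s i = (K * ε) * τ * (s i / n) := by ring
    have e2 : s i / n ≤ 1 := (div_le_one hn0).2 (hsn i)
    have e3 : 0 ≤ K * ε * τ := by positivity
    rw [e1]
    calc K * ε * τ * (s i / n) ≤ K * ε * τ * 1 := mul_le_mul_of_nonneg_left e2 e3
      _ ≤ τ / 2 := by nlinarith
  have hKsmall : K * (ε * τ / n) ≤ τ := by
    have e1 : K * (ε * τ / n) = (K * ε) * (τ / n) := by ring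
    have e2 : τ / n ≤ τ := div_le_self hτ0.le hn'
    have e3 : 0 ≤ τ / n := by positivity
    rw [e1]
    nlinarith
  have hw2 : ∀ i, K * w i ≤ 2 * τ := by
    intro i
    simp only [hw]
    split_ifs with hc hd
    · rw [mul_zero]; positivity
    · push Not at hc
      have h4 := hs2 i hc.1 hc.2
      have h5 : 0 < s i := by linarith
      have e : K * (τ / (K * s i)) = τ / s i := by
        field_simp
      rw [e, div_le_iff₀ h5]
      nlinarith
    · linarith
  have hw1 : K * w i1 ≤ τ := by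
    simp only [hw]
    split_ifs with hc hd
    · rw [mul_zero]; exact hτ0.le
    · have h4 := hs1 hd
      have h5 : 0 < s i1 := by linarith
      have e : K * (τ / (K * s i1)) = τ / s i1 := by
        field_simp
      rw [e, div_le_iff₀ h5]
      nlinarith
    · exact hKsmall
  have hwlow : ∀ i < k, ¬ ZA i → (R i).Nonempty → ε * τ / n ≤ w i := by
    intro i hi hz hne
    simp only [hw]
    rw [if_neg (by push Not; exact ⟨hz, hne⟩)]
    split_ifs with hd
    · have h4 := hs2 i hz hne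
      have h5 : 0 < s i := by linarith
      rw [div_le_div_iff₀ hn0 (by positivity)]
      have e1 : ε * τ * (K * s i) = (K * ε) * τ * s i := by ring
      have e2 : 0 ≤ K * ε * τ := by positivity
      rw [e1]
      calc K * ε * τ * s i ≤ K * ε * τ * n := mul_le_mul_of_nonneg_left (hsn i) e2
        _ ≤ τ * n := by
            refine mul_le_mul_of_nonneg_right ?_ hn0.le
            nlinarith
    · exact le_rfl
  set w' : ℕ → ℝ := fun i => w i + if ∃ c < n, i * n + c ∈ J then 0 else ε * τ with hw'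
  have hww' : ∀ i, w i ≤ w' i := by
    intro i; simp only [hw']; split_ifs
    · linarith
    · have : 0 ≤ ε * τ := by positivity
      linarith
  have hw'sum : ∑ i ∈ range k, w' i ≤ τ := by
    have e0 : K * ∑ j ∈ range k, w' j ≤ K * τ := by
      have e1 : ∑ j ∈ range k, w' j ≤ ∑ j ∈ range k, w j + k * (ε * τ) := by
        simp only [hw', Finset.sum_add_distrib]
        have : ∑ i ∈ range k, (if ∃ c < n, i * n + c ∈ J then (0 : ℝ) else ε * τ) ≤
            ∑ i ∈ range k, ε * τ := Finset.sum_le_sum fun i _ => by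
          split_ifs
          · positivity
          · exact le_rfl
        rw [Finset.sum_const, card_range, nsmul_eq_mul] at this
        linarith
      have e2 : K * ∑ j ∈ range k, w j ≤ (2 * (k : ℝ) - 1) * τ := by
        rw [← Finset.add_sum_erase _ _ (mem_range.2 hi1), mul_add, Finset.mul_sum]
        have e1 : ∑ i ∈ (range k).erase i1, K * w i ≤
            ∑ i ∈ (range k).erase i1, 2 * τ :=
          Finset.sum_le_sum fun i hi => hw2 i
        rw [Finset.sum_const, card_erase_of_mem (mem_range.2 hi1), card_range, nsmul_eq_mul,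
          Nat.cast_sub hk, Nat.cast_one] at e1
        linarith
      have e3 := mul_le_mul_of_nonneg_left e1 hK.le
      have e4 := mul_le_mul_of_nonneg_right hkε hτ0.le
      have e5 : K * (∑ j ∈ range k, w j + k * (ε * τ)) =
          K * ∑ j ∈ range k, w j + K * (k * ε) * τ := by ring
      rw [e5] at e3
      rw [add_mul] at e4
      linarith
    exact le_of_mul_le_mul_left e0 hK
  set u : ℕ → ℝ := fun i => if i = i0 then 1 + τ - ∑ j ∈ (range k).erase i0, w' j else w' i
    with hu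
  set v : ℕ → ℕ → ℝ := fun i b => if k * n + (i * n + b) ∈ J then 0 else
    w i * (y i b * ((al a i b : ℚ) : ℝ)⁻¹) with hv
  set x := mkv k n u v with hx
  have hU : ∀ i < k, U k n x i = u i := fun i hi => by rw [hx, U_mkv hi]
  have hX : ∀ i < k, ∀ b < n, X k n x i b = v i b := fun i hi b hb => by rw [hx, X_mkv hi hb]
  have hwu : ∀ i < k, w' i ≤ u i := by
    intro i hi
    simp only [hu]
    split_ifs with hc
    · have := Finset.add_sum_erase (range k) w' (mem_range.2 hi0)
      rw [hc]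
      linarith
    · exact le_rfl
  have hsumU : ∑ j ∈ range k, U k n x j = 1 + τ := by
    rw [Finset.sum_congr rfl fun j hj => hU j (mem_range.1 hj),
      ← Finset.add_sum_erase _ _ (mem_range.2 hi0)]
    have e1 : ∑ j ∈ (range k).erase i0, u j = ∑ j ∈ (range k).erase i0, w' j := by
      refine Finset.sum_congr rfl fun j hj => ?_
      simp only [hu]
      rw [if_neg (ne_of_mem_erase hj)]
    rw [e1]
    simp only [if_true]
    ring
  have hv0 : ∀ i b, 0 ≤ v i b := by
    intro i b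
    simp only [hv]
    split_ifs
    · exact le_rfl
    · exact mul_nonneg (hw0 i) (hterm i b)
  have halv : ∀ i b, ((al a i b : ℚ) : ℝ) * v i b =
      if k * n + (i * n + b) ∈ J then 0 else w i * y i b := by
    intro i b
    simp only [hv]
    split_ifs
    · rw [mul_zero]
    · have := (al_pos a i b).ne'
      field_simp
  have halvle : ∀ i b, ((al a i b : ℚ) : ℝ) * v i b ≤ w i := by
    intro i b
    rw [halv]
    split_ifs
    · exact hw0 i
    · have := hy1 i b
      have := hw0 i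
      nlinarith
  have hXs : ∀ i < k, K * ∑ b ∈ range n, X k n x i b = K * (w i * s i) := by
    intro i hi
    rw [Finset.sum_congr rfl fun b hb => hX i hi b (mem_range.1 hb)]
    congr 1
    simp only [hv, hs', hR]
    rw [Finset.mul_sum, Finset.sum_filter]
    refine Finset.sum_congr rfl fun b _ => ?_
    by_cases hc : k * n + (i * n + b) ∈ J
    · rw [if_pos hc, if_neg (not_not.2 hc)]
    · rw [if_neg hc, if_pos hc]
  have hXC : ∀ i < k, 2 * (k * n) + i ∈ J → K * (w i * s i) = τ := by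
    intro i hi hC
    obtain ⟨hz, hne⟩ := hCn i hi hC
    have h4 := hs2 i hz hne
    have h5 : s i ≠ 0 := by
      have : 0 < s i := by linarith
      exact this.ne'
    simp only [hw]
    rw [if_neg (by push Not; exact ⟨hz, hne⟩), if_pos hC]
    field_simp
  have hXnC : ∀ i < k, 2 * (k * n) + i ∉ J → K * (w i * s i) ≤ τ / 2 := by
    intro i hi hC
    simp only [hw]
    split_ifs
    · rw [zero_mul, mul_zero]; positivity
    · rw [← mul_assoc]; exact hKs i
  have hxP : x ∈ (hs k n a).P := by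
    rw [mem_P]
    refine ⟨fun i hi b hb => ?_, fun i hi b hb => ?_, fun i hi => ?_⟩
    · rw [hX i hi b hb, hU i hi]
      exact (halvle i b).trans ((hww' i).trans (hwu i hi))
    · rw [hX i hi b hb]; exact hv0 i b
    · rw [← hKdef, hXs i hi, hsumU]
      by_cases hC : 2 * (k * n) + i ∈ J
      · rw [hXC i hi hC]; linarith
      · have := hXnC i hi hC
        linarith
  have hxF : x ∈ (hs k n a).F J := by
    refine ⟨hxP, fun j hj => ?_⟩
    rcases cases_idx (mem_range.1 (hJ hj)) with ⟨i, hi, b, hb, rfl⟩ | ⟨i, hi, b, hb, rfl⟩ |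
      ⟨i, hi, rfl⟩
    · rw [mem_TA hi hb, hX i hi b hb, halv i b, hU i hi]
      have hne : i ≠ i0 := fun h => h0 b hb (h ▸ hj)
      have hhit : ∃ c < n, i * n + c ∈ J := ⟨b, hb, hj⟩
      have hui : u i = w i := by
        simp only [hu, hw']
        rw [if_neg hne, if_pos hhit, add_zero]
      rw [hui]
      by_cases hB : k * n + (i * n + b) ∈ J
      · rw [if_pos hB]
        have hz : ZA i := ⟨b, hb, hj, hB⟩
        simp only [hw]
        rw [if_pos (Or.inl hz)]
      · rw [if_neg hB, hyJ i b hj, mul_one]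
    · rw [mem_TB hi hb, hX i hi b hb]
      simp only [hv]
      rw [if_pos hj]
    · rw [mem_TC hi, ← hKdef, hXs i hi, hsumU, hXC i hi hj]
      ring
  refine ⟨x, hxF, hsumU, fun j hj hcl => ?_⟩
  unfold Cl at hcl
  push Not at hcl
  obtain ⟨hcl1, _, hcl3⟩ := hcl
  have hκ : τ / (16 * (k : ℝ) ^ 2 * n) = ε * τ / n / 4 := by
    rw [hε]; field_simp; norm_num
  rw [hκ]
  have hκ0 : 0 ≤ ε * τ / n := by positivity
  have hκ1 : ε * τ / n ≤ ε * τ := div_le_self (by positivity) hn'
  have hκ2 : ε * τ / n ≤ τ := by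
    have : K * (ε * τ / n) ≤ τ := hKsmall
    have h3 : 1 ≤ K := by rw [hKdef]; linarith
    nlinarith
  rcases cases_idx hj with ⟨i, hi, b, hb, rfl⟩ | ⟨i, hi, b, hb, rfl⟩ | ⟨i, hi, rfl⟩
  · have hlt := idx_lt hi hb
    rw [rAB (by omega), gA i b hi hb, hX i hi b hb, hU i hi]
    have hz : ¬ ZA i := by
      rintro ⟨c, hc, hcA, hcB⟩
      exact (hcl3 i hi ⟨c, hc, hcA, hcB⟩ b hb).1 rfl
    by_cases hhit : ∃ c < n, i * n + c ∈ J
    · obtain ⟨c, hc, hcJ⟩ := hhit
      have hne : i ≠ i0 := fun h => h0 c hc (h ▸ hcJ)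
      have hui : u i = w i := by
        simp only [hu, hw']
        rw [if_neg hne, if_pos ⟨c, hc, hcJ⟩, add_zero]
      have hlow := hwlow i hi hz ⟨c, hhitR i hz c hc hcJ⟩
      rw [hui]
      have hle : ((al a i b : ℚ) : ℝ) * v i b ≤ w i / 2 := by
        rw [halv]
        split_ifs
        · linarith [hw0 i]
        · have : y i b = 1 / 2 := by
            simp only [hy]; rw [if_pos ⟨⟨c, hc, hcJ⟩, hcl1⟩]
          rw [this]; linarith
      linarith
    · have hui : w i + ε * τ ≤ u i := by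
        have := hwu i hi
        simp only [hw'] at this
        rwa [if_neg hhit] at this
      have := halvle i b
      linarith
  · have hlt := idx_lt hi hb
    rw [rAB (by omega), gB i b hi hb, hX i hi b hb]
    have hz : ¬ ZA i := by
      rintro ⟨c, hc, hcA, hcB⟩
      exact (hcl3 i hi ⟨c, hc, hcA, hcB⟩ b hb).2 rfl
    have hlow := hwlow i hi hz ⟨b, mem_filter.2 ⟨mem_range.2 hb, hcl1⟩⟩
    simp only [hv]
    rw [if_neg hcl1]
    have e1 : 1 / 4 ≤ y i b * ((al a i b : ℚ) : ℝ)⁻¹ := by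
      have := hy2 i b
      have := (halinv i b).2
      nlinarith
    have := hw0 i
    nlinarith
  · rw [rC hi, gC i hi, ← hKdef, hXs i hi, hsumU]
    have := hXnC i hi hcl1
    linarith

end

end Pool.Agent.V7H11.LF
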