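import Pool.Agent.V7H11.LF.Upper

/-!
# The polyhedra with a hidden vertex: the system of inequalities

Variables `u_i` (`i < k`) and `x_{ib}` (`i < k`, `b < n`); inequalities
`α_{ib} x_{ib} ≤ u_i`, `0 ≤ x_{ib}`, `(2k-1/2) Σ_b x_{ib} ≤ Σ_j u_j - 1`, where `α_{ib} = 2` for
`b = a_i` and `α_{ib} = 1` otherwise.
-/

set_option autoImplicit false

namespace Pool.Agent.V7H11.LF

open Finset Matrix Pool.Agent.W986.BF

/-- `α_{ib}` -/
def al (a : ℕ → ℕ) (i b : ℕ) : ℚ := if b = a i then 2 else 1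

/-- the coefficient of the variable with number `t` in the inequality with number `j` -/
def coef (k n : ℕ) (a : ℕ → ℕ) (j t : ℕ) : ℚ :=
  if j < k * n then
    (if t = k + j then al a (j / n) (j % n) else 0) - (if t = j / n then 1 else 0)
  else if j < 2 * (k * n) then
    -(if t = k + (j - k * n) then 1 else 0)
  else
    (if k + (j - 2 * (k * n)) * n ≤ t ∧ t < k + (j - 2 * (k * n)) * n + n then 2 * (k : ℚ) - 1 / 2
      else 0) - (if t < k then 1 else 0)

/-- the system -/
def hid (k n : ℕ) (a : ℕ → ℕ) : LinSys :=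
  (k + k * n, (List.range (2 * (k * n) + k)).map fun j =>
    ((List.range (k + k * n)).map (coef k n a j), if j < 2 * (k * n) then 0 else -1))

theorem length_hid (k n : ℕ) (a : ℕ → ℕ) : (hid k n a).2.length = 2 * (k * n) + k := by
  simp [hid]

theorem getD_hid (k n : ℕ) (a : ℕ → ℕ) {j : ℕ} (hj : j < 2 * (k * n) + k) :
    (hid k n a).2.getD j ([], 0) = ((List.range (k + k * n)).map (coef k n a j),
      if j < 2 * (k * n) then 0 else -1) := by
  rw [List.getD_eq_getElem _ _ (by rw [length_hid]; exact hj)]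
  simp [hid]

/-- the system as a `Sy` -/
noncomputable def hs (k n : ℕ) (a : ℕ → ℕ) : Sy (k + k * n) := sy (hid k n a)

/-- a coordinate -/
def co {d : ℕ} (x : Fin d → ℝ) (t : ℕ) : ℝ := if h : t < d then x ⟨t, h⟩ else 0

theorem g_hid (k n : ℕ) (a : ℕ → ℕ) {j : ℕ} (hj : j < 2 * (k * n) + k)
    (x : Fin (k + k * n) → ℝ) :
    (hs k n a).g j ⬝ᵥ x = ∑ t ∈ range (k + k * n), ((coef k n a j t : ℚ) : ℝ) * co x t := by
  rw [Finset.sum_range]
  change ∑ t : Fin (k + k * n), ((((hid k n a).2.getD j ([], 0)).1.getD t 0 : ℚ) : ℝ) * x t = _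
  rw [getD_hid k n a hj]
  refine Finset.sum_congr rfl fun t _ => ?_
  have h1 : ((List.range (k + k * n)).map (coef k n a j)).getD (t : ℕ) 0 = coef k n a j t := by
    rw [List.getD_eq_getElem _ _ (by simp)]
    simp
  simp only [h1, co, t.2, dif_pos, Fin.eta]

theorem r_hid (k n : ℕ) (a : ℕ → ℕ) {j : ℕ} (hj : j < 2 * (k * n) + k) :
    (hs k n a).r j = if j < 2 * (k * n) then 0 else -1 := by
  change (((((hid k n a).2.getD j ([], 0)).2 : ℚ)) : ℝ) = _
  rw [getD_hid k n a hj]
  split_ifs <;> simp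

theorem m_hid (k n : ℕ) (a : ℕ → ℕ) : (hs k n a).m = 2 * (k * n) + k := length_hid k n a

section

variable {k n : ℕ} {a : ℕ → ℕ}

theorem idx_lt {i b : ℕ} (hi : i < k) (hb : b < n) : i * n + b < k * n := by
  calc i * n + b < i * n + n := by omega
    _ = (i + 1) * n := by ring
    _ ≤ k * n := Nat.mul_le_mul_right _ hi

theorem idx_div {i b : ℕ} (hb : b < n) : (i * n + b) / n = i := by
  rw [mul_comm, Nat.mul_add_div (by omega), Nat.div_eq_of_lt hb, add_zero]

theorem idx_mod {i b : ℕ} (hb : b < n) : (i * n + b) % n = b := by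
  rw [mul_comm, Nat.mul_add_mod, Nat.mod_eq_of_lt hb]

theorem idx_inj {i b i' b' : ℕ} (hb : b < n) (hb' : b' < n) (h : i * n + b = i' * n + b') :
    i = i' ∧ b = b' := by
  have h1 := idx_div (i := i) hb
  have h2 := idx_div (i := i') hb'
  have h3 := idx_mod (i := i) hb
  have h4 := idx_mod (i := i') hb'
  rw [h] at h1 h3
  exact ⟨h1.symm.trans h2, h3.symm.trans h4⟩

theorem idx_ex {j : ℕ} (hj : j < k * n) : ∃ i < k, ∃ b < n, j = i * n + b := by
  have hn : 0 < n := by
    rcases Nat.eq_zero_or_pos n with h | h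
    · subst h; simp at hj
    · exact h
  exact ⟨j / n, Nat.div_lt_of_lt_mul (by have := Nat.mul_comm k n; omega), j % n,
    Nat.mod_lt _ hn, (Nat.div_add_mod' _ _).symm⟩

/-- the variables `u_i` -/
def U (k n : ℕ) (x : Fin (k + k * n) → ℝ) (i : ℕ) : ℝ := co x i

/-- the variables `x_{ib}` -/
def X (k n : ℕ) (x : Fin (k + k * n) → ℝ) (i b : ℕ) : ℝ := co x (k + (i * n + b))

theorem gA (i b : ℕ) (hi : i < k) (hb : b < n) (x : Fin (k + k * n) → ℝ) :
    (hs k n a).g (i * n + b) ⬝ᵥ x = (al a i b : ℚ) * X k n x i b - U k n x i := by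
  have h1 := idx_lt hi hb
  rw [g_hid k n a (by omega)]
  have h2 : ∀ t, ((coef k n a (i * n + b) t : ℚ) : ℝ) * co x t =
      (if t = k + (i * n + b) then ((al a i b : ℚ) : ℝ) * co x t else 0) -
        (if t = i then co x t else 0) := by
    intro t
    unfold coef
    rw [if_pos h1, idx_div hb, idx_mod hb]
    push_cast
    split_ifs <;> ring
  simp only [h2, Finset.sum_sub_distrib, Finset.sum_ite_eq', mem_range]
  rw [if_pos (by omega), if_pos (by omega)]
  rfl

theorem gB (i b : ℕ) (hi : i < k) (hb : b < n) (x : Fin (k + k * n) → ℝ) :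
    (hs k n a).g (k * n + (i * n + b)) ⬝ᵥ x = - X k n x i b := by
  have h1 := idx_lt hi hb
  rw [g_hid k n a (by omega)]
  have h2 : ∀ t, ((coef k n a (k * n + (i * n + b)) t : ℚ) : ℝ) * co x t =
      -(if t = k + (i * n + b) then co x t else 0) := by
    intro t
    unfold coef
    rw [if_neg (by omega), if_pos (by omega), Nat.add_sub_cancel_left]
    push_cast
    split_ifs <;> ring
  simp only [h2, Finset.sum_neg_distrib, Finset.sum_ite_eq', mem_range]
  rw [if_pos (by omega)]
  rfl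

theorem gC (i : ℕ) (hi : i < k) (x : Fin (k + k * n) → ℝ) :
    (hs k n a).g (2 * (k * n) + i) ⬝ᵥ x =
      (2 * (k : ℝ) - 1 / 2) * ∑ b ∈ range n, X k n x i b - ∑ j ∈ range k, U k n x j := by
  rw [g_hid k n a (by omega)]
  have hin : i * n + n ≤ k * n := by
    calc i * n + n = (i + 1) * n := by ring
      _ ≤ k * n := Nat.mul_le_mul_right _ hi
  have h2 : ∀ t, ((coef k n a (2 * (k * n) + i) t : ℚ) : ℝ) * co x t =
      (if k + i * n ≤ t ∧ t < k + i * n + n then (2 * (k : ℝ) - 1 / 2) * co x t else 0) -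
        (if t < k then co x t else 0) := by
    intro t
    unfold coef
    rw [if_neg (by omega), if_neg (by omega), Nat.add_sub_cancel_left]
    split_ifs <;> push_cast <;> ring
  simp only [h2, Finset.sum_sub_distrib]
  congr 1
  · rw [← Finset.sum_filter]
    have h3 : (range (k + k * n)).filter (fun t => k + i * n ≤ t ∧ t < k + i * n + n) =
        Ico (k + i * n) (k + i * n + n) := by
      ext t
      simp only [mem_filter, mem_range, mem_Ico]
      omega
    rw [h3, Finset.sum_Ico_eq_sum_range, Finset.mul_sum]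
    have h4 : k + i * n + n - (k + i * n) = n := by omega
    rw [h4]
    refine Finset.sum_congr rfl fun b _ => ?_
    unfold X
    rw [add_assoc]
  · rw [← Finset.sum_filter]
    have h3 : (range (k + k * n)).filter (fun t => t < k) = range k := by
      ext t
      simp only [mem_filter, mem_range]
      omega
    rw [h3]
    rfl

theorem rAB {j : ℕ} (hj : j < 2 * (k * n)) : (hs k n a).r j = 0 := by
  rw [r_hid k n a (by omega), if_pos hj]

theorem rC {i : ℕ} (hi : i < k) : (hs k n a).r (2 * (k * n) + i) = -1 := by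
  rw [r_hid k n a (by omega), if_neg (by omega)]

/-- the three kinds of inequalities -/
theorem cases_idx {j : ℕ} (hj : j < 2 * (k * n) + k) :
    (∃ i < k, ∃ b < n, j = i * n + b) ∨ (∃ i < k, ∃ b < n, j = k * n + (i * n + b)) ∨
      ∃ i < k, j = 2 * (k * n) + i := by
  by_cases h1 : j < k * n
  · exact Or.inl (idx_ex h1)
  by_cases h2 : j < 2 * (k * n)
  · obtain ⟨i, hi, b, hb, h3⟩ := idx_ex (k := k) (n := n) (j := j - k * n) (by omega)
    exact Or.inr (Or.inl ⟨i, hi, b, hb, by omega⟩)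
  · exact Or.inr (Or.inr ⟨j - 2 * (k * n), by omega, by omega⟩)

theorem mem_P {x : Fin (k + k * n) → ℝ} : x ∈ (hs k n a).P ↔
    (∀ i < k, ∀ b < n, (al a i b : ℚ) * X k n x i b ≤ U k n x i) ∧
    (∀ i < k, ∀ b < n, 0 ≤ X k n x i b) ∧
    ∀ i < k, (2 * (k : ℝ) - 1 / 2) * ∑ b ∈ range n, X k n x i b ≤ ∑ j ∈ range k, U k n x j - 1 := by
  constructor
  · intro h
    refine ⟨fun i hi b hb => ?_, fun i hi b hb => ?_, fun i hi => ?_⟩
    · have h1 := idx_lt hi hb
      have := h (i * n + b) (by rw [m_hid]; omega)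
      rw [gA i b hi hb, rAB (by omega)] at this
      linarith
    · have h1 := idx_lt hi hb
      have := h (k * n + (i * n + b)) (by rw [m_hid]; omega)
      rw [gB i b hi hb, rAB (by omega)] at this
      linarith
    · have := h (2 * (k * n) + i) (by rw [m_hid]; omega)
      rw [gC i hi, rC hi] at this
      linarith
  · rintro ⟨h1, h2, h3⟩ j hj
    rw [m_hid] at hj
    rcases cases_idx hj with ⟨i, hi, b, hb, rfl⟩ | ⟨i, hi, b, hb, rfl⟩ | ⟨i, hi, rfl⟩
    · have := idx_lt hi hb
      rw [gA i b hi hb, rAB (by omega)]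
      linarith [h1 i hi b hb]
    · have := idx_lt hi hb
      rw [gB i b hi hb, rAB (by omega)]
      linarith [h2 i hi b hb]
    · rw [gC i hi, rC hi]
      linarith [h3 i hi]

theorem mem_TA {x : Fin (k + k * n) → ℝ} {i b : ℕ} (hi : i < k) (hb : b < n) :
    i * n + b ∈ (hs k n a).T x ↔ (al a i b : ℚ) * X k n x i b = U k n x i := by
  have h1 := idx_lt hi hb
  rw [Sy.mem_T, m_hid, gA i b hi hb, rAB (by omega), sub_eq_zero]
  exact ⟨fun h => h.2, fun h => ⟨by omega, h⟩⟩

theorem mem_TB {x : Fin (k + k * n) → ℝ} {i b : ℕ} (hi : i < k) (hb : b < n) :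
    k * n + (i * n + b) ∈ (hs k n a).T x ↔ X k n x i b = 0 := by
  have h1 := idx_lt hi hb
  rw [Sy.mem_T, m_hid, gB i b hi hb, rAB (by omega), neg_eq_zero]
  exact ⟨fun h => h.2, fun h => ⟨by omega, h⟩⟩

theorem mem_TC {x : Fin (k + k * n) → ℝ} {i : ℕ} (hi : i < k) :
    2 * (k * n) + i ∈ (hs k n a).T x ↔
      (2 * (k : ℝ) - 1 / 2) * ∑ b ∈ range n, X k n x i b = ∑ j ∈ range k, U k n x j - 1 := by
  rw [Sy.mem_T, m_hid, gC i hi, rC hi]
  constructor
  · intro h; linarith [h.2]
  · intro h; exact ⟨by omega, by linarith⟩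

/-- the vector with given parts -/
noncomputable def mkv (k n : ℕ) (u : ℕ → ℝ) (v : ℕ → ℕ → ℝ) : Fin (k + k * n) → ℝ :=
  fun t => if (t : ℕ) < k then u t else v ((t - k) / n) ((t - k) % n)

theorem U_mkv {u : ℕ → ℝ} {v : ℕ → ℕ → ℝ} {i : ℕ} (hi : i < k) : U k n (mkv k n u v) i = u i := by
  unfold U co mkv
  rw [dif_pos (by omega)]
  simp only [hi, if_true]

theorem X_mkv {u : ℕ → ℝ} {v : ℕ → ℕ → ℝ} {i b : ℕ} (hi : i < k) (hb : b < n) :
    X k n (mkv k n u v) i b = v i b := by
  have h1 := idx_lt hi hb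
  unfold X co mkv
  rw [dif_pos (by omega)]
  simp only [Nat.not_lt.2 (Nat.le_add_right k (i * n + b)), if_false, Nat.add_sub_cancel_left,
    idx_div hb, idx_mod hb]

theorem ext_UX {x y : Fin (k + k * n) → ℝ} (h1 : ∀ i < k, U k n x i = U k n y i)
    (h2 : ∀ i < k, ∀ b < n, X k n x i b = X k n y i b) : x = y := by
  funext t
  have ht := t.2
  by_cases h : (t : ℕ) < k
  · have := h1 t h
    unfold U co at this
    rw [dif_pos (by omega), dif_pos (by omega)] at this
    exact this
  · obtain ⟨i, hi, b, hb, h3⟩ := idx_ex (k := k) (n := n) (j := t - k) (by omega)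
    have := h2 i hi b hb
    unfold X co at this
    have h4 : k + (i * n + b) = t := by omega
    rw [dif_pos (by omega), dif_pos (by omega)] at this
    simpa only [h4] using this

end

end Pool.Agent.V7H11.LF
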