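import Pool.Agent.V7H11.LF.Faces

/-!
# The algorithm
-/

set_option autoImplicit false

namespace Pool.Agent.V7H11.LF

open Finset Matrix Pool.Agent.W986.BF Alg

/-- the points of the polyhedron at which the inequalities with numbers in `J` are tight -/
def face (S : LinSys) (J : Finset ℕ) : Set (Fin S.1 → ℝ) :=
  {x | x ∈ polyhedron S ∧ ∀ j ∈ J, j < S.2.length ∧
    lhs (S.2.getD j ([], 0)) x = (((S.2.getD j ([], 0)).2 : ℚ) : ℝ)}

/-- the slack of the inequality number `i`: right-hand side minus left-hand side -/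
noncomputable def slack (S : LinSys) (i : ℕ) (x : Fin S.1 → ℝ) : ℝ :=
  (((S.2.getD i ([], 0)).2 : ℚ) : ℝ) - lhs (S.2.getD i ([], 0)) x

open Classical in
/-- the true answers for the polyhedron of the system `S` -/
noncomputable def answers (S : LinSys) : Query → Bool
  | Query.feas J => decide (face S J).Nonempty
  | Query.bdd J => decide (Bornology.IsBounded (face S J))
  | Query.zero J i => decide (∀ x ∈ face S J, slack S i x = 0)
  | Query.fin J i => decide (∃ C : ℝ, ∀ x ∈ face S J, slack S i x ≤ C)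

theorem face_eq (S : LinSys) (J : Finset ℕ) : face S J = (sy S).F J := by
  ext x
  unfold face
  rw [polyhedron_eq]
  constructor
  · rintro ⟨h1, h2⟩
    exact ⟨h1, fun j hj => Sy.mem_T.2 (h2 j hj)⟩
  · rintro ⟨h1, h2⟩
    exact ⟨h1, fun j hj => Sy.mem_T.1 (h2 hj)⟩

theorem fe_answers (S : LinSys) (J : Finset ℕ) :
    fe (answers S) J ↔ ((sy S).F J).Nonempty := by
  classical
  unfold fe answers
  rw [decide_eq_true_iff, face_eq]

theorem bdd_answers (S : LinSys) (J : Finset ℕ) :
    answers S (Query.bdd J) = true ↔ Bornology.IsBounded ((sy S).F J) := by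
  classical
  unfold answers
  rw [decide_eq_true_iff, face_eq]

/-- the Hasse diagram computed from the list of the sets of tight inequalities -/
def hasse (m : ℕ) (R : List (Finset ℕ)) : List (List ℕ) × List (ℕ × ℕ) :=
  (R.map (lst m), (List.range R.length ×ˢ List.range R.length).filter fun p =>
    decide (R.getD p.2 ∅ ⊂ R.getD p.1 ∅ ∧ ∀ T ∈ R, ¬ (R.getD p.2 ∅ ⊂ T ∧ T ⊂ R.getD p.1 ∅)))

theorem TF_sub (S : LinSys) {T : Finset ℕ} (hT : T ∈ Sy.TF (sy S)) : T ⊆ range S.2.length := by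
  obtain ⟨x, _, rfl, _⟩ := hT
  exact Sy.T_sub x

theorem isHasse_of (S : LinSys) (R : List (Finset ℕ)) (hnd : R.Nodup)
    (hR : ∀ T, T ∈ R ↔ T ∈ Sy.TF (sy S)) : IsHasse S (hasse S.2.length R) := by
  have hget : ∀ (i : ℕ) (T : Finset ℕ), T ∈ Sy.TF (sy S) →
      ((R.map (lst S.2.length))[i]? = some (tight S ((sy S).F T)) ↔ R[i]? = some T) := by
    intro i T hT
    rw [List.getElem?_map, tight_F S hT]
    constructor
    · intro h
      rw [Option.map_eq_some_iff] at h
      obtain ⟨T', h1, h2⟩ := h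
      have h3 : T' ∈ R := List.mem_of_getElem? h1
      rw [lst_inj (TF_sub S ((hR T').1 h3)) (TF_sub S hT) h2] at h1
      exact h1
    · intro h
      rw [h]; rfl
  refine ⟨?_, ?_, ?_, ?_⟩
  · refine List.Nodup.map_on (fun T hT T' hT' he => ?_) hnd
    exact lst_inj (TF_sub S ((hR T).1 hT)) (TF_sub S ((hR T').1 hT')) he
  · intro t
    change t ∈ R.map (lst S.2.length) ↔ _
    rw [List.mem_map]
    constructor
    · rintro ⟨T, hT, rfl⟩
      have hT' := (hR T).1 hT
      exact ⟨(sy S).F T, (mem_boundedFaces S _).2 ⟨T, hT', rfl⟩, tight_F S hT'⟩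
    · rintro ⟨A, hA, rfl⟩
      obtain ⟨T, hT, rfl⟩ := (mem_boundedFaces S A).1 hA
      exact ⟨T, (hR T).2 hT, (tight_F S hT).symm⟩
  · exact ((List.nodup_range).product List.nodup_range).filter _
  · intro i j
    change (i, j) ∈ (List.product (List.range R.length) (List.range R.length)).filter _ ↔ _
    rw [List.mem_filter, List.pair_mem_product, List.mem_range, List.mem_range,
      decide_eq_true_eq]
    constructor
    · rintro ⟨⟨hi, hj⟩, h1, h2⟩
      simp only [List.getD_eq_getElem _ _ hi, List.getD_eq_getElem _ _ hj] at h1 h2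
      have hTi : R[i] ∈ Sy.TF (sy S) := (hR _).1 (List.getElem_mem hi)
      have hTj : R[j] ∈ Sy.TF (sy S) := (hR _).1 (List.getElem_mem hj)
      refine ⟨(sy S).F R[i], (mem_boundedFaces S _).2 ⟨_, hTi, rfl⟩, (sy S).F R[j],
        (mem_boundedFaces S _).2 ⟨_, hTj, rfl⟩, (hget i _ hTi).2 (List.getElem?_eq_getElem hi),
        (hget j _ hTj).2 (List.getElem?_eq_getElem hj), (Sy.F_ssub_iff hTi hTj).2 h1, ?_⟩
      rintro ⟨K, hK, h3, h4⟩
      obtain ⟨T, hT, rfl⟩ := (mem_boundedFaces S K).1 hK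
      exact h2 T ((hR T).2 hT) ⟨(Sy.F_ssub_iff hT hTj).1 h4, (Sy.F_ssub_iff hTi hT).1 h3⟩
    · rintro ⟨A, hA, B, hB, h1, h2, h3, h4⟩
      obtain ⟨T, hT, rfl⟩ := (mem_boundedFaces S A).1 hA
      obtain ⟨T', hT', rfl⟩ := (mem_boundedFaces S B).1 hB
      have h1' := (hget i T hT).1 h1
      have h2' := (hget j T' hT').1 h2
      obtain ⟨hi, hi'⟩ := List.getElem?_eq_some_iff.1 h1'
      obtain ⟨hj, hj'⟩ := List.getElem?_eq_some_iff.1 h2'
      refine ⟨⟨hi, hj⟩, ?_⟩
      simp only [List.getD_eq_getElem _ _ hi, List.getD_eq_getElem _ _ hj, hi', hj']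
      refine ⟨(Sy.F_ssub_iff hT hT').1 h3, fun U hU hcon => h4 ?_⟩
      have hU' := (hR U).1 hU
      exact ⟨(sy S).F U, (mem_boundedFaces S _).2 ⟨U, hU', rfl⟩, (Sy.F_ssub_iff hT hU').2 hcon.2,
        (Sy.F_ssub_iff hU' hT').2 hcon.1⟩

/-- the algorithm for polyhedra given by `m` inequalities -/
def main (m : ℕ) : Alg (List (List ℕ) × List (ℕ × ℕ)) :=
  (maxFeas m ∅ (List.range m)).bind fun Vs => (joins [] Vs).bind fun R => out (hasse m R)

theorem main_spec (S : LinSys) (hS : ((polyhedron S).extremePoints ℝ).Nonempty) :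
    IsHasse S ((main S.2.length).run (answers S)) ∧
      (main S.2.length).cost (answers S) ≤
        (S.2.length * (boundedFaces S).ncard + 2) ^ (Nat.log 2 ((boundedFaces S).ncard + 1) + 1) +
          (boundedFaces S).ncard ^ 2 := by
  classical
  have hNL := nl_of_extreme S hS
  have hPne : (sy S).P.Nonempty := by
    obtain ⟨v, hv⟩ := hS
    rw [polyhedron_eq] at hv
    exact ⟨v, hv.1⟩
  rw [ncard_boundedFaces]
  set m := S.2.length with hm
  set o := answers S with ho
  set N := (Sy.TF (sy S)).ncard with hN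
  have hfe : ∀ J, fe o J ↔ ((sy S).F J).Nonempty := fe_answers S
  have hbd : ∀ J, o (Query.bdd J) = true ↔ Bornology.IsBounded ((sy S).F J) := bdd_answers S
  have hd : ∀ J J', fe o J → J' ⊆ J → fe o J' := by
    intro J J' h1 h2
    rw [hfe] at h1 ⊢
    exact h1.mono (Sy.F_anti h2)
  have hmr : ∀ J, fe o J → J ⊆ range m := by
    intro J h
    rw [hfe] at h
    obtain ⟨x, _, hx⟩ := h
    exact hx.trans (Sy.T_sub x)
  have h0 : fe o ∅ := by
    rw [hfe]
    obtain ⟨v, hv⟩ := hPne
    exact ⟨v, hv, Finset.empty_subset _⟩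
  have hW : (∅ : Finset ℕ) ∪ (List.range m).toFinset = range m := by
    ext k; simp
  -- the maximal feasible sets
  have hV := mem_maxFeas hd m ∅ (List.range m) (by simp) h0
  rw [hW] at hV
  set Vs := (maxFeas m ∅ (List.range m)).run o with hVs
  have hVmax : ∀ V, V ∈ Vs ↔ ((sy S).F V).Nonempty ∧
      ∀ Z, V ⊆ Z → ((sy S).F Z).Nonempty → Z = V := by
    intro V
    rw [hV]
    constructor
    · rintro ⟨_, _, h3, h4⟩
      exact ⟨(hfe V).1 h3, fun Z hZ hZ' => h4 Z hZ (hmr Z ((hfe Z).2 hZ')) ((hfe Z).2 hZ')⟩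
    · rintro ⟨h3, h4⟩
      exact ⟨Finset.empty_subset _, hmr V ((hfe V).2 h3), (hfe V).2 h3,
        fun Z hZ _ hZ' => h4 Z hZ ((hfe Z).1 hZ')⟩
  have hVTF : ∀ V ∈ Vs, V ∈ Sy.TF (sy S) := fun V h =>
    Sy.bounded_of_max hNL ((hVmax V).1 h).1 ((hVmax V).1 h).2
  have hlen : ∀ l : List (Finset ℕ), l.Nodup → (∀ T ∈ l, T ∈ Sy.TF (sy S)) → l.length ≤ N := by
    intro l hl hT
    rw [← List.toFinset_card_of_nodup hl, ← Set.ncard_coe_finset, hN]
    exact Set.ncard_le_ncard (fun T h => hT T (by simpa using h)) Sy.TF_finite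
  have hVlen : Vs.length ≤ N := hlen Vs (nodup_maxFeas _ _ _) hVTF
  have hfac : (facets o m).card ≤ N := by
    rw [← Set.ncard_coe_finset, hN]
    refine Set.ncard_le_ncard (fun T h => ?_) Sy.TF_finite
    exact hVTF T ((hV T).2 (mem_facets.1 (Finset.mem_coe.1 h)))
  have hb : ∀ T T', T ⊆ T' → o (Query.bdd T) = true → o (Query.bdd T') = true := by
    intro T T' h1 h2
    rw [hbd] at h2 ⊢
    exact h2.subset (Sy.F_anti h1)
  -- intersections
  have hcapTF : ∀ P : Finset (Finset ℕ), P.Nonempty → (∀ V ∈ P, V ∈ Vs) →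
      ∃ x ∈ (sy S).P, (sy S).T x = cap m P := by
    intro P
    induction P using Finset.induction_on with
    | empty => intro h; exact absurd h Finset.not_nonempty_empty
    | insert V P hVP ih =>
      intro _ hP
      obtain ⟨x, hx, hxV, _⟩ := hVTF V (hP V (mem_insert_self _ _))
      rcases P.eq_empty_or_nonempty with rfl | hne
      · refine ⟨x, hx, ?_⟩
        rw [LawfulSingleton.insert_empty_eq, cap_singleton, hxV]
        rw [← hxV]; exact Sy.T_sub x
      · obtain ⟨y, hy, hyT⟩ := ih hne fun U hU => hP U (mem_insert_of_mem hU)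
        obtain ⟨w, hw, hwT⟩ := Sy.exists_inter (Y := sy S) hy hx
        exact ⟨w, hw, by rw [hwT, hyT, hxV, cap_insert]⟩
  have hGd : ∀ T, Gd o m (∅ ∪ Vs.toFinset) T ↔ T ∈ Sy.TF (sy S) := by
    intro T
    rw [empty_union]
    constructor
    · rintro ⟨P, h1, h2, h3, h4⟩
      obtain ⟨x, hx, hxT⟩ := hcapTF P h2 fun V hV' => by simpa using h1 hV'
      refine ⟨x, hx, by rw [hxT, h3], (hbd T).1 h4⟩
    · rintro ⟨x, hx, hxT, hbT⟩
      have hT0 : fe o T := by rw [hfe]; exact ⟨x, hx, by rw [hxT]⟩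
      refine ⟨Vs.toFinset.filter fun V => T ⊆ V, filter_subset _ _, ?_, ?_, (hbd T).2 hbT⟩
      · obtain ⟨Z, hZ1, hZ2⟩ := exists_isMax (o := o) (empty_subset T) (hmr T hT0) hT0
        exact ⟨Z, mem_filter.2 ⟨by simpa using (hV Z).2 hZ2, hZ1⟩⟩
      · ext k
        simp only [cap, mem_filter, List.mem_toFinset, mem_range]
        constructor
        · intro hk
          exact ⟨mem_range.1 (hmr T hT0 hk), fun V hV' => hV'.2 hk⟩
        · rintro ⟨hk, hall⟩
          by_contra hkT
          rw [← hxT] at hkT hbT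
          obtain ⟨V, h1, h2, h3, h4⟩ := Sy.exists_max_avoid (Y := sy S) hx hbT hk hkT
          rw [hxT] at h1
          exact h2 (hall V ⟨(hVmax V).2 ⟨h3, h4⟩, h1⟩)
  have hj := joins_spec (o := o) (m := m) hb N Vs [] ∅ (fun V hV' => by
      obtain ⟨x, _, hxV, hbV⟩ := hVTF V hV'
      exact ⟨by rw [← hxV]; exact Sy.T_sub x, (hbd V).2 hbV⟩) List.nodup_nil
    (fun T => by
      constructor
      · intro h; simp at h
      · rintro ⟨P, h1, h2, _⟩
        rw [Finset.subset_empty.1 h1] at h2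
        exact absurd h2 Finset.not_nonempty_empty)
    (fun l hl hT => hlen l hl fun T h => (hGd T).1 (hT T h))
  obtain ⟨hj1, hj2, hj3⟩ := hj
  constructor
  · have e : (main m).run o = hasse m ((joins [] Vs).run o) := by
      unfold main
      rw [run_bind, run_bind]; rfl
    rw [e, hm]
    exact isHasse_of S _ hj1 fun T => (hj2 T).trans (hGd T)
  · have e : (main m).cost o = (maxFeas m ∅ (List.range m)).cost o + (joins [] Vs).cost o := by
      unfold main
      rw [cost_bind, cost_bind]; rfl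
    rw [e]
    -- the rank
    have hrank : Rank o ∅ (∅ ∪ (List.range m).toFinset) (Nat.log 2 (N + 1)) := by
      rw [hW]
      intro E hE hE'
      obtain ⟨E', hE1, hE2⟩ : ∃ E' ∈ E.powerset.filter fun E' => ¬ fe o E',
          ∀ Z ∈ E.powerset.filter (fun E' => ¬ fe o E'), E'.card ≤ Z.card :=
        Finset.exists_min_image _ _ ⟨E, by simp [hE']⟩
      rw [mem_filter, mem_powerset] at hE1
      refine ⟨E', hE1.1, hE1.2, ?_⟩
      rw [sdiff_empty]
      refine Nat.le_log_of_pow_le (by norm_num) ?_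
      refine Sy.helly hNL (hE1.1.trans hE) (fun h => hE1.2 ((hfe E').2 h)) fun i hi => ?_
      by_contra hcon
      have := hE2 (E'.erase i) (by
        rw [mem_filter, mem_powerset]
        exact ⟨(erase_subset _ _).trans hE1.1, fun h => hcon ((hfe _).1 h)⟩)
      rw [card_erase_of_mem hi] at this
      have := Finset.card_pos.2 ⟨i, hi⟩
      omega
    have hc := cost_maxFeas hd hmr m ∅ (List.range m) _ (by simp) h0 hrank
    have h1 : (m * (facets o m).card + 2) ^ (Nat.log 2 (N + 1) + 1) ≤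
        (m * N + 2) ^ (Nat.log 2 (N + 1) + 1) :=
      Nat.pow_le_pow_left (by have := Nat.mul_le_mul_left m hfac; omega) _
    have h2 : Vs.length * N ≤ N ^ 2 := by
      rw [pow_two]; exact Nat.mul_le_mul_right _ hVlen
    omega

/-- the Helly number of the sets of tight inequalities -/
theorem helly_spec (S : LinSys) (hS : ((polyhedron S).extremePoints ℝ).Nonempty) (J : Finset ℕ)
    (hJm : ∀ j ∈ J, j < S.2.length) (hJ : ¬ (face S J).Nonempty)
    (hJ' : ∀ i ∈ J, (face S (J.erase i)).Nonempty) :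
    2 ^ J.card ≤ (boundedFaces S).ncard + 1 := by
  rw [ncard_boundedFaces]
  simp only [face_eq] at hJ hJ'
  exact Sy.helly (nl_of_extreme S hS) (fun j hj => mem_range.2 (hJm j hj)) hJ hJ'

theorem finite_boundedFaces (S : LinSys) : (boundedFaces S).Finite := by
  have e : boundedFaces S = (sy S).F '' Sy.TF (sy S) := by
    ext A
    rw [mem_boundedFaces, Set.mem_image]
    exact ⟨fun ⟨T, h1, h2⟩ => ⟨T, h1, h2.symm⟩, fun ⟨T, h1, h2⟩ => ⟨T, h1, h2.symm⟩⟩
  rw [e]
  exact Sy.TF_finite.image _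

end Pool.Agent.V7H11.LF
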